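import Pool.Agent.V8H44.TH.Dat

set_option autoImplicit false

namespace Pool.Agent.V8H44.TH

open Classical in
theorem ranks (A B : Finset ℕ) (f : ℕ → ℤ) (hf : ∀ a ∈ A, ∀ a' ∈ A, f a = f a' → a = a')
    (R : ℕ → ℕ → Prop)
    (hA : ∀ a ∈ A, ∀ a' ∈ A, ∀ b ∈ B, f a' < f a → R a b → R a' b)
    (hB : ∀ a ∈ A, ∀ b ∈ B, ∀ b' ∈ B, b' < b → R a b → R a b') :
    ∃ p q : ℕ → ℕ, (∀ a ∈ A, ∀ a' ∈ A, f a' < f a → p a' < p a) ∧
      (∀ b ∈ B, ∀ b' ∈ B, b' < b → q b < q b') ∧
      (∀ a ∈ A, ∀ b ∈ B, R a b → p a + 1 ≤ q b) ∧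
      (∀ a ∈ A, ∀ b ∈ B, ¬ R a b → q b + 1 ≤ p a) ∧
      (∀ a, p a ≤ A.card + B.card) ∧ (∀ b, q b ≤ A.card + B.card) := by
  refine ⟨fun a => (A.filter fun a' => f a' < f a).card + (B.filter fun b => ¬ R a b).card,
    fun b => (B.filter fun b' => b < b').card + (A.filter fun a => R a b).card,
    ?_, ?_, ?_, ?_, ?_, ?_⟩
  · intro a ha a' ha' hlt
    have h1 : (A.filter fun x => f x < f a').card < (A.filter fun x => f x < f a).card := by
      apply Finset.card_lt_card
      rw [Finset.ssubset_iff_of_subset]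
      · exact ⟨a', by simp [ha', hlt], by simp⟩
      · intro x hx
        simp only [Finset.mem_filter] at hx ⊢
        exact ⟨hx.1, hx.2.trans hlt⟩
    have h2 : (B.filter fun b => ¬ R a' b).card ≤ (B.filter fun b => ¬ R a b).card := by
      apply Finset.card_le_card
      intro x hx
      simp only [Finset.mem_filter] at hx ⊢
      exact ⟨hx.1, fun h => hx.2 (hA a ha a' ha' x hx.1 hlt h)⟩
    exact Nat.add_lt_add_of_lt_of_le h1 h2
  · intro b hb b' hb' hlt
    have h1 : (B.filter fun x => b < x).card < (B.filter fun x => b' < x).card := by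
      apply Finset.card_lt_card
      rw [Finset.ssubset_iff_of_subset]
      · exact ⟨b, by simp [hb, hlt], by simp⟩
      · intro x hx
        simp only [Finset.mem_filter] at hx ⊢
        exact ⟨hx.1, hlt.trans hx.2⟩
    have h2 : (A.filter fun a => R a b).card ≤ (A.filter fun a => R a b').card := by
      apply Finset.card_le_card
      intro x hx
      simp only [Finset.mem_filter] at hx ⊢
      exact ⟨hx.1, hB x hx.1 b hb b' hb' hlt hx.2⟩
    exact Nat.add_lt_add_of_lt_of_le h1 h2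
  · intro a ha b hb hR
    have h1 : (A.filter fun x => f x < f a).card + 1 ≤ (A.filter fun x => R x b).card := by
      have h3 : a ∉ A.filter fun x => f x < f a := by simp
      rw [← Finset.card_insert_of_notMem h3]
      apply Finset.card_le_card
      intro x hx
      rcases Finset.mem_insert.1 hx with rfl | hx
      · simp [ha, hR]
      · simp only [Finset.mem_filter] at hx ⊢
        exact ⟨hx.1, hA a ha x hx.1 b hb hx.2 hR⟩
    have h2 : (B.filter fun x => ¬ R a x).card ≤ (B.filter fun x => b < x).card := by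
      apply Finset.card_le_card
      intro x hx
      simp only [Finset.mem_filter] at hx ⊢
      refine ⟨hx.1, ?_⟩
      by_contra hcon
      rcases (not_lt.1 hcon).lt_or_eq with h | h
      · exact hx.2 (hB a ha b hb x hx.1 h hR)
      · exact hx.2 (h ▸ hR)
    show _ + _ + 1 ≤ _ + _
    omega
  · intro a ha b hb hR
    have h1 : (A.filter fun x => R x b).card ≤ (A.filter fun x => f x < f a).card := by
      apply Finset.card_le_card
      intro x hx
      simp only [Finset.mem_filter] at hx ⊢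
      refine ⟨hx.1, ?_⟩
      by_contra hcon
      rcases (not_lt.1 hcon).lt_or_eq with h | h
      · exact hR (hA x hx.1 a ha b hb h hx.2)
      · have := hf a ha x hx.1 h
        subst this
        exact hR hx.2
    have h2 : (B.filter fun x => b < x).card + 1 ≤ (B.filter fun x => ¬ R a x).card := by
      have h3 : b ∉ B.filter fun x => b < x := by simp
      rw [← Finset.card_insert_of_notMem h3]
      apply Finset.card_le_card
      intro x hx
      rcases Finset.mem_insert.1 hx with rfl | hx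
      · simp [hb, hR]
      · simp only [Finset.mem_filter] at hx ⊢
        exact ⟨hx.1, fun h => hR (hB a ha x hx.1 b hb hx.2 h)⟩
    show _ + _ + 1 ≤ _ + _
    omega
  · intro a
    exact add_le_add (Finset.card_filter_le _ _) (Finset.card_filter_le _ _)
  · intro b
    have h1 := Finset.card_filter_le B (fun x => b < x)
    have h2 := Finset.card_filter_le A (fun x => R x b)
    show _ + _ ≤ _
    omega


open Classical in
theorem stmNum : StmNum := by
  intro l r0 sS tT C O D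
  -- the three types of inner vertices
  obtain ⟨S, hSdef⟩ : ∃ S : Fin 3 → Finset ℕ, ∀ r i, i ∈ S r ↔ (0 < i ∧ i < l r ∧ ¬ tT r i) :=
    ⟨fun r => (Finset.range (l r)).filter (fun i => 0 < i ∧ ¬ tT r i), fun r i => by
      simp only [Finset.mem_filter, Finset.mem_range]; tauto⟩
  obtain ⟨T, hTdef⟩ : ∃ T : Fin 3 → Finset ℕ, ∀ r i, i ∈ T r ↔ (0 < i ∧ i < l r ∧ ¬ sS r i) :=
    ⟨fun r => (Finset.range (l r)).filter (fun i => 0 < i ∧ ¬ sS r i), fun r i => by
      simp only [Finset.mem_filter, Finset.mem_range]; tauto⟩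
  obtain ⟨Ac, hAdef⟩ : ∃ Ac : Fin 3 → Finset ℕ, ∀ r i, i ∈ Ac r ↔
      (0 < i ∧ i < l r ∧ sS r i ∧ tT r i) :=
    ⟨fun r => (Finset.range (l r)).filter (fun i => 0 < i ∧ sS r i ∧ tT r i), fun r i => by
      simp only [Finset.mem_filter, Finset.mem_range]; tauto⟩
  have hSs : ∀ r, ∀ i ∈ S r, sS r i := by
    intro r i hi
    have h := (hSdef r i).1 hi
    rcases D.st r i h.1 h.2.1 with h' | h'
    · exact h'
    · exact absurd h' h.2.2
  have hTt : ∀ r, ∀ i ∈ T r, tT r i := by
    intro r i hi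
    have h := (hTdef r i).1 hi
    rcases D.st r i h.1 h.2.1 with h' | h'
    · exact absurd h' h.2.2
    · exact h'
  have hST : ∀ r, ∀ i ∈ S r, ∀ j ∈ T r, i < j := by
    intro r i hi j hj
    have h := (hSdef r i).1 hi
    have h' := (hTdef r j).1 hj
    by_contra hcon
    rcases (not_lt.1 hcon).lt_or_eq with h1 | h1
    · exact h.2.2 (D.tmono r j i h'.1 h1 h.2.1 (hTt r j hj))
    · subst h1
      exact h.2.2 (hTt r _ hj)
  have hS0 : ∀ r, ∀ i ∈ S r, r ≠ r0 := by
    rintro r i hi rfl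
    have h := (hSdef r i).1 hi
    exact h.2.2 (D.r0s i h.1 h.2.1).2
  have hT0 : ∀ r, ∀ i ∈ T r, r ≠ r0 := by
    rintro r i hi rfl
    have h := (hTdef r i).1 hi
    exact h.2.2 (D.r0s i h.1 h.2.1).1
  have htri : ∀ r i, 0 < i → i < l r → i ∈ S r ∨ i ∈ T r ∨ i ∈ Ac r := by
    intro r i h0 h1
    rw [hSdef, hTdef, hAdef]
    tauto
  -- ranks on the routes
  choose p q hp hq hO hnO hpM hqM using fun r => ranks (S r) (T r) (fun i => -(i : ℤ))
    (fun a _ a' _ h => by simpa using h) (O r)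
    (fun a ha a' ha' b hb hlt h => by
      have h1 : a < a' := by
        have : -(a' : ℤ) < -(a : ℤ) := hlt
        omega
      have hb' := (hTdef r b).1 hb
      have ha1 := (hSdef r a).1 ha
      exact D.omono r a a' b b ha1.1 h1.le (hST r a' ha' b hb) le_rfl hb'.2.1 h)
    (fun a ha b hb b' hb' hlt h => by
      have h1 := (hTdef r b).1 hb
      have ha1 := (hSdef r a).1 ha
      exact D.omono r a a b' b ha1.1 le_rfl (hST r a ha b' hb') hlt.le h1.2.1 h)
  -- symmetry
  have hsym : ∀ r i r' j, r ≠ r' → i ∈ Ac r → j ∈ Ac r' → (C r i r' j ↔ C r' j r i) := by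
    have key : ∀ r i r' j, r ≠ r' → i ∈ Ac r → j ∈ Ac r' → C r i r' j → C r' j r i := by
      intro r i r' j hr hi hj h
      have hi' := (hAdef r i).1 hi
      have hj' := (hAdef r' j).1 hj
      exact (D.c3 r i r' j hr hi'.1 hi'.2.1 hj'.1 hj'.2.1 h).2 hi'.2.2.1
    intro r i r' j hr hi hj
    exact ⟨key r i r' j hr hi hj, key r' j r i hr.symm hj hi⟩
  have hmono : ∀ r i r' j j', r ≠ r' → i ∈ Ac r → j ∈ Ac r' → j' ∈ Ac r' → j < j' →
      C r i r' j' → C r i r' j := by
    intro r i r' j j' hr hi hj hj' hlt h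
    have hi1 := (hAdef r i).1 hi
    have hj1 := (hAdef r' j).1 hj
    have hj1' := (hAdef r' j').1 hj'
    exact D.cmono r i r' j j' hr hi1.1 hi1.2.1 hj1.1 hlt hj1'.2.1 h
  have hmono' : ∀ r i i' r' j, r ≠ r' → i ∈ Ac r → i' ∈ Ac r → j ∈ Ac r' → i < i' →
      C r i' r' j → C r i r' j := by
    intro r i i' r' j hr hi hi' hj hlt h
    rw [hsym r i r' j hr hi hj]
    rw [hsym r i' r' j hr hi' hj] at h
    exact hmono r' j r i i' hr.symm hj hi hi' hlt h
  have h12 : (1 : Fin 3) ≠ 2 := by decide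
  have h10 : (1 : Fin 3) ≠ 0 := by decide
  have h20 : (2 : Fin 3) ≠ 0 := by decide
  obtain ⟨u, v, hu, hv, hC, hnC, huM, hvM⟩ := ranks (Ac 1) (Ac 2) (fun i => (i : ℤ))
    (fun a _ a' _ h => by simpa using h) (fun i j => C 1 i 2 j)
    (fun a ha a' ha' b hb hlt h => by
      have h1 : a' < a := by
        have : (a' : ℤ) < (a : ℤ) := hlt
        omega
      exact hmono' 1 a' a 2 b h12 ha' ha hb h1 h)
    (fun a ha b hb b' hb' hlt h => hmono 1 a 2 b' b h12 ha hb' hb hlt h)
  have hu' : ∀ a ∈ Ac 1, ∀ a' ∈ Ac 1, a' < a → u a' < u a := fun a ha a' ha' h =>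
    hu a ha a' ha' (by exact_mod_cast h)
  obtain ⟨g1, hg1, hg1', hg1M⟩ : ∃ g : ℕ, (∀ i ∈ Ac 1, C 1 i 0 1 → u i + 1 ≤ g) ∧
      (∀ i ∈ Ac 1, (∀ i' ∈ Ac 1, C 1 i' 0 1 → i' < i) → g ≤ u i) ∧
      g ≤ (Ac 1).card + (Ac 2).card + 1 := by
    refine ⟨((Ac 1).filter fun i => C 1 i 0 1).sup fun i => u i + 1, ?_, ?_, ?_⟩
    · intro i hi h
      exact Finset.le_sup (f := fun i => u i + 1) (Finset.mem_filter.2 ⟨hi, h⟩)
    · intro i hi h
      refine Finset.sup_le fun i' hi' => ?_
      have h' := Finset.mem_filter.1 hi'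
      exact hu' i hi i' h'.1 (h i' h'.1 h'.2)
    · refine Finset.sup_le fun i' hi' => ?_
      have := huM i'
      omega
  obtain ⟨g2, hg2, hg2', hg2M⟩ : ∃ g : ℕ, (∀ i ∈ Ac 2, ¬ C 2 i 0 1 → v i + 1 ≤ g) ∧
      (∀ i ∈ Ac 2, (∀ i' ∈ Ac 2, ¬ C 2 i' 0 1 → i < i') → g ≤ v i) ∧
      g ≤ (Ac 1).card + (Ac 2).card + 1 := by
    refine ⟨((Ac 2).filter fun i => ¬ C 2 i 0 1).sup fun i => v i + 1, ?_, ?_, ?_⟩
    · intro i hi h
      exact Finset.le_sup (f := fun i => v i + 1) (Finset.mem_filter.2 ⟨hi, h⟩)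
    · intro i hi h
      refine Finset.sup_le fun i' hi' => ?_
      have h' := Finset.mem_filter.1 hi'
      exact hv i' h'.1 i hi (h i' h'.1 h'.2)
    · refine Finset.sup_le fun i' hi' => ?_
      have := hvM i'
      omega
  -- the coordinates of the active vertices
  obtain ⟨A, hA0, hA1, hA2⟩ : ∃ A : Fin 3 → ℕ → ℝ, (∀ i, A 0 i = ((g2 : ℝ) - g1) / 2) ∧
      (∀ i, A 1 i = (u i : ℝ) - ((g1 : ℝ) + g2) / 2) ∧
      (∀ i, A 2 i = ((g1 : ℝ) + g2) / 2 - (v i : ℝ)) :=
    ⟨![fun _ => ((g2 : ℝ) - g1) / 2, fun i => (u i : ℝ) - ((g1 : ℝ) + g2) / 2,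
      fun i => ((g1 : ℝ) + g2) / 2 - (v i : ℝ)], fun _ => rfl, fun _ => rfl, fun _ => rfl⟩
  obtain ⟨K, hK⟩ : ∃ K : ℝ, K = ((Ac 1).card : ℝ) + (Ac 2).card + 2 := ⟨_, rfl⟩
  have hK0 : 0 < K := by rw [hK]; positivity
  have hg1R : (g1 : ℝ) ≤ (Ac 1).card + (Ac 2).card + 1 := by exact_mod_cast hg1M
  have hg2R : (g2 : ℝ) ≤ (Ac 1).card + (Ac 2).card + 1 := by exact_mod_cast hg2M
  have hg10 : (0 : ℝ) ≤ g1 := Nat.cast_nonneg _
  have hg20 : (0 : ℝ) ≤ g2 := Nat.cast_nonneg _
  have hAb : ∀ r i, -K < A r i ∧ A r i < K := by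
    intro r i
    have h1 : (u i : ℝ) ≤ (Ac 1).card + (Ac 2).card := by exact_mod_cast huM i
    have h2 : (v i : ℝ) ≤ (Ac 1).card + (Ac 2).card := by exact_mod_cast hvM i
    have h3 : (0 : ℝ) ≤ u i := Nat.cast_nonneg _
    have h4 : (0 : ℝ) ≤ v i := Nat.cast_nonneg _
    have h5 : r = 0 ∨ r = 1 ∨ r = 2 := by fin_cases r <;> simp
    rcases h5 with rfl | rfl | rfl
    · rw [hA0]; constructor <;> linarith
    · rw [hA1]; constructor <;> linarith
    · rw [hA2]; constructor <;> linarith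
  have hl0 : ∀ i ∈ Ac 0, i = 1 := by
    intro i hi
    have h := (hAdef 0 i).1 hi
    have := D.l0
    omega
  have hAm : ∀ r, ∀ i ∈ Ac r, ∀ j ∈ Ac r, i < j → A r i < A r j := by
    intro r i hi j hj hij
    have h5 : r = 0 ∨ r = 1 ∨ r = 2 := by fin_cases r <;> simp
    rcases h5 with rfl | rfl | rfl
    · rw [hl0 i hi, hl0 j hj] at hij
      exact absurd hij (lt_irrefl _)
    · rw [hA1, hA1]
      have : (u i : ℝ) < u j := by exact_mod_cast hu' j hj i hi hij
      linarith
    · rw [hA2, hA2]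
      have : (v j : ℝ) < v i := by exact_mod_cast hv j hj i hi hij
      linarith
  have hA12 : ∀ i ∈ Ac 1, ∀ j ∈ Ac 2, (C 1 i 2 j → A 1 i + A 2 j ≤ 0) ∧
      (¬ C 1 i 2 j → 0 ≤ A 1 i + A 2 j) := by
    intro i hi j hj
    rw [hA1, hA2]
    constructor
    · intro h
      have : (u i : ℝ) + 1 ≤ v j := by exact_mod_cast hC i hi j hj h
      linarith
    · intro h
      have : (v j : ℝ) + 1 ≤ u i := by exact_mod_cast hnC i hi j hj h
      linarith
  have hA10 : ∀ i ∈ Ac 1, ∀ j ∈ Ac 0, (C 1 i 0 j → A 1 i + A 0 j ≤ 0) ∧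
      (¬ C 1 i 0 j → 0 ≤ A 1 i + A 0 j) := by
    intro i hi j hj
    obtain rfl := hl0 j hj
    rw [hA1, hA0]
    constructor
    · intro h
      have : (u i : ℝ) + 1 ≤ g1 := by exact_mod_cast hg1 i hi h
      linarith
    · intro h
      have h7 : g1 ≤ u i := by
        refine hg1' i hi fun i' hi' h' => ?_
        by_contra hcon
        rcases (not_lt.1 hcon).lt_or_eq with h1 | h1
        · exact h (hmono' 1 i i' 0 1 h10 hi hi' hj h1 h')
        · exact h (h1 ▸ h')
      have : (g1 : ℝ) ≤ u i := by exact_mod_cast h7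
      linarith
  have hA20 : ∀ i ∈ Ac 2, ∀ j ∈ Ac 0, (C 2 i 0 j → A 2 i + A 0 j ≤ 0) ∧
      (¬ C 2 i 0 j → 0 ≤ A 2 i + A 0 j) := by
    intro i hi j hj
    obtain rfl := hl0 j hj
    rw [hA2, hA0]
    constructor
    · intro h
      have h7 : g2 ≤ v i := by
        refine hg2' i hi fun i' hi' h' => ?_
        by_contra hcon
        rcases (not_lt.1 hcon).lt_or_eq with h1 | h1
        · exact h' (hmono' 2 i' i 0 1 h20 hi' hi hj h1 h)
        · exact h' (h1 ▸ h)
      have : (g2 : ℝ) ≤ v i := by exact_mod_cast h7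
      linarith
    · intro h
      have : (v i : ℝ) + 1 ≤ g2 := by exact_mod_cast hg2 i hi h
      linarith
  have hAC : ∀ r i r' j, r ≠ r' → i ∈ Ac r → j ∈ Ac r' → (C r i r' j → A r i + A r' j ≤ 0) ∧
      (¬ C r i r' j → 0 ≤ A r i + A r' j) := by
    have h3 : ∀ r r' : Fin 3, r ≠ r' → (r = 1 ∧ r' = 2) ∨ (r = 1 ∧ r' = 0) ∨ (r = 2 ∧ r' = 0) ∨
        (r' = 1 ∧ r = 2) ∨ (r' = 1 ∧ r = 0) ∨ (r' = 2 ∧ r = 0) := by decide
    intro r i r' j hr hi hj
    rcases h3 r r' hr with ⟨rfl, rfl⟩ | ⟨rfl, rfl⟩ | ⟨rfl, rfl⟩ | ⟨rfl, rfl⟩ | ⟨rfl, rfl⟩ | ⟨rfl, rfl⟩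
    · exact hA12 i hi j hj
    · exact hA10 i hi j hj
    · exact hA20 i hi j hj
    · rw [hsym _ i _ j hr hi hj, add_comm]; exact hA12 j hj i hi
    · rw [hsym _ i _ j hr hi hj, add_comm]; exact hA10 j hj i hi
    · rw [hsym _ i _ j hr hi hj, add_comm]; exact hA20 j hj i hi
  -- all coordinates
  obtain ⟨c, hc⟩ : ∃ c : Fin 3 → ℝ, ∀ r, c r = (S r).card + (T r).card + 2 := ⟨_, fun _ => rfl⟩
  obtain ⟨η, hη⟩ : ∃ η : Fin 3 → ℝ, ∀ r, η r = if r = r0 then 0 else c r := ⟨_, fun _ => rfl⟩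
  have hη0 : ∀ r, 0 ≤ η r := by
    intro r
    rw [hη]
    split_ifs
    · exact le_rfl
    · rw [hc]; positivity
  have hηc : ∀ r, r ≠ r0 → η r = c r := fun r hr => by rw [hη, if_neg hr]
  obtain ⟨X, hX⟩ : ∃ X : Fin 3 → ℕ → ℝ, ∀ r i, X r i = if i = 0 then -(K + η r) else
      if l r ≤ i then K + η r else if i ∈ S r then -K - p r i else
      if i ∈ T r then K + (c r - (q r i + 1)) else A r i := ⟨_, fun _ _ => rfl⟩
  have hX0 : ∀ r, X r 0 = -(K + η r) := fun r => by rw [hX, if_pos rfl]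
  have hXl : ∀ r, X r (l r) = K + η r := fun r => by
    have := D.l2 r
    rw [hX, if_neg (by omega), if_pos le_rfl]
  have hXS : ∀ r, ∀ i ∈ S r, X r i = -K - p r i := fun r i hi => by
    have := (hSdef r i).1 hi
    rw [hX, if_neg (by omega), if_neg (by omega), if_pos hi]
  have hXT : ∀ r, ∀ i ∈ T r, X r i = K + (c r - (q r i + 1)) := fun r i hi => by
    have := (hTdef r i).1 hi
    rw [hX, if_neg (by omega), if_neg (by omega), if_neg (fun h => lt_irrefl _ (hST r i h i hi)),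
      if_pos hi]
  have hXA : ∀ r, ∀ i ∈ Ac r, X r i = A r i := fun r i hi => by
    have h := (hAdef r i).1 hi
    rw [hX, if_neg (by omega), if_neg (by omega), if_neg (fun h' => ((hSdef r i).1 h').2.2 h.2.2.2),
      if_neg (fun h' => ((hTdef r i).1 h').2.2 h.2.2.1)]
  have hpb : ∀ r i, (0 : ℝ) ≤ p r i ∧ (p r i : ℝ) + 2 ≤ c r := fun r i => by
    have h1 : (p r i : ℝ) ≤ (S r).card + (T r).card := by exact_mod_cast hpM r i
    rw [hc]
    exact ⟨Nat.cast_nonneg _, by linarith⟩
  have hqb : ∀ r i, (0 : ℝ) ≤ q r i ∧ (q r i : ℝ) + 2 ≤ c r := fun r i => by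
    have h1 : (q r i : ℝ) ≤ (S r).card + (T r).card := by exact_mod_cast hqM r i
    rw [hc]
    exact ⟨Nat.cast_nonneg _, by linarith⟩
  have hXb : ∀ r i, 0 < i → i < l r → -(K + η r) < X r i ∧ X r i < K + η r := by
    intro r i h0 h1
    have hη1 := hη0 r
    rcases htri r i h0 h1 with h | h | h
    · rw [hXS r i h, hηc r (hS0 r i h)]
      have := hpb r i
      constructor <;> linarith [this.1, this.2]
    · rw [hXT r i h, hηc r (hT0 r i h)]
      have := hqb r i
      constructor <;> linarith [this.1, this.2]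
    · rw [hXA r i h]
      have := hAb r i
      constructor <;> linarith [this.1, this.2]
  refine ⟨X, K, hK0, ?_, ?_, ?_, ?_, ?_, ?_, ?_⟩
  · intro r i hi
    have hl2 := D.l2 r
    rcases Nat.eq_zero_or_pos i with rfl | hi0
    · rw [hX0, zero_add]
      exact (hXb r 1 one_pos (by omega)).1
    rcases Nat.lt_or_ge (i + 1) (l r) with h1 | h1
    · have hti := htri r i hi0 hi
      have htj := htri r (i + 1) (by omega) h1
      rcases hti with h | h | h
      · rw [hXS r i h]
        have hpi := hpb r i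
        rcases htj with h' | h' | h'
        · rw [hXS r _ h']
          have h7 : p r (i + 1) < p r i := by
            refine hp r i h (i + 1) h' ?_
            show -((i + 1 : ℕ) : ℤ) < -(i : ℤ)
            push_cast
            linarith
          have : (p r (i + 1) : ℝ) < p r i := by exact_mod_cast h7
          linarith
        · rw [hXT r _ h']
          have := hqb r (i + 1)
          linarith [this.1, this.2, hpi.1, hpi.2]
        · rw [hXA r _ h']
          have := hAb r (i + 1)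
          linarith [this.1, this.2, hpi.1, hpi.2]
      · have hi' := (hTdef r i).1 h
        have htt := hTt r i h
        have h2 : i + 1 ∈ T r := by
          rw [hTdef]
          exact ⟨by omega, h1, fun h' => hi'.2.2 (D.smono r i (i + 1) hi0 (by omega) h1 h')⟩
        rw [hXT r i h, hXT r _ h2]
        have : (q r (i + 1) : ℝ) < q r i := by exact_mod_cast hq r (i + 1) h2 i h (by omega)
        linarith
      · have hi' := (hAdef r i).1 h
        rw [hXA r i h]
        rcases htj with h' | h' | h'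
        · have h2 := (hSdef r (i + 1)).1 h'
          exact absurd (D.tmono r i (i + 1) hi0 (by omega) h1 hi'.2.2.2) h2.2.2
        · rw [hXT r _ h']
          have := hqb r (i + 1)
          have h3 := hAb r i
          linarith [this.1, this.2, h3.1, h3.2]
        · rw [hXA r _ h']
          exact hAm r i h (i + 1) h' (by omega)
    · have h2 : i + 1 = l r := by omega
      rw [h2, hXl]
      exact (hXb r i hi0 hi).2
  · intro r
    rw [hX0, hXl]
  · rw [hXl, hη, if_pos rfl, add_zero]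
  · intro r
    rw [hXl]
    linarith [hη0 r]
  · intro r i h0 h1
    rcases htri r i h0 h1 with h | h | h
    · rw [hXS r i h]
      have h2 := (hSdef r i).1 h
      have h3 := hpb r i
      refine ⟨fun _ => by linarith [h3.1], fun h' => absurd (hSs r i h) h', fun h' => absurd h' h2.2.2,
        fun _ => by linarith [h3.1]⟩
    · rw [hXT r i h]
      have h2 := (hTdef r i).1 h
      have h3 := hqb r i
      refine ⟨fun h' => absurd h' h2.2.2, fun _ => by linarith [h3.1, h3.2],
        fun _ => by linarith [h3.1, h3.2], fun h' => absurd (hTt r i h) h'⟩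
    · rw [hXA r i h]
      have h2 := (hAdef r i).1 h
      have h3 := hAb r i
      refine ⟨fun _ => h3.2.le, fun h' => absurd h2.2.2.1 h', fun _ => h3.1.le,
        fun h' => absurd h2.2.2.2 h'⟩
  · intro r i r' j hr hi0 hi1 hj0 hj1 hs ht
    have hi : i ∈ Ac r := (hAdef r i).2 ⟨hi0, hi1, hs, ht⟩
    rw [hXA r i hi]
    have h3 := hAb r i
    rcases htri r' j hj0 hj1 with h | h | h
    · rw [hXS r' j h]
      have h2 := (hSdef r' j).1 h
      have h4 := hpb r' j
      refine ⟨fun _ => by linarith [h3.1, h3.2, h4.1], fun h' => ?_⟩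
      exact absurd (D.ct r i r' j hr hi0 hi1 hj0 hj1 h') h2.2.2
    · rw [hXT r' j h]
      have h2 := (hTdef r' j).1 h
      have h4 := hqb r' j
      refine ⟨fun h' => ?_, fun _ => by linarith [h3.1, h3.2, h4.1, h4.2]⟩
      exact absurd (D.cs r i r' j hr hi0 hi1 hj0 hj1 h') h2.2.2
    · rw [hXA r' j h]
      exact hAC r i r' j hr hi h
  · intro r i j hi0 hij hj1 hnt hns
    have hi : i ∈ S r := (hSdef r i).2 ⟨hi0, hij.trans hj1, hnt⟩
    have hj : j ∈ T r := (hTdef r j).2 ⟨hi0.trans hij, hj1, hns⟩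
    rw [hXS r i hi, hXT r j hj, hXl, hηc r (hS0 r i hi)]
    constructor
    · intro h
      have : (p r i : ℝ) + 1 ≤ q r j := by exact_mod_cast hO r i hi j hj h
      linarith
    · intro h
      have : (q r j : ℝ) + 1 ≤ p r i := by exact_mod_cast hnO r i hi j hj h
      linarith

end Pool.Agent.V8H44.TH
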