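import Mathlib

/-!
The theta graphs `Θ_{a,b,c}`.
-/

set_option autoImplicit false

namespace Pool.Agent.V8H44.TH

/-- The list of the vertices of a route from `0` to `1` with the inner vertices
`k, k + 1, ..., k + m - 1` (so it has `m + 1` edges). -/
def route (k m : ℕ) : List ℕ := 0 :: (List.range' k m ++ [1])

/-- The graph `Θ_{a,b,c}` (for positive `a, b, c`): the vertices are `0, 1, ..., a + b + c - 2`;
there are three routes from `s = 0` to `t = 1`, with `a`, `b` and `c` edges; the inner vertices are
`2, ..., a` on the first, `a + 1, ..., a + b - 1` on the second and `a + b, ..., a + b + c - 2` on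
the third route. Two vertices are adjacent if they are consecutive on one of the three routes. -/
def theta (a b c : ℕ) : SimpleGraph (Fin (a + b + c - 1)) :=
  SimpleGraph.fromRel fun x y =>
    [(x : ℕ), (y : ℕ)] <:+: route 2 (a - 1) ∨
    [(x : ℕ), (y : ℕ)] <:+: route (a + 1) (b - 1) ∨
    [(x : ℕ), (y : ℕ)] <:+: route (a + b) (c - 1)

end Pool.Agent.V8H44.TH
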