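import Pool.Agent.V8H44.TH.Theta
import Pool.Agent.V8H44.TH.Graph

set_option autoImplicit false

namespace Pool.Agent.V8H44.TH

open Pool.Agent.V8H16.Theta

theorem edge_inj {V : Type} {G : SimpleGraph V} {l : Fin 3 → ℕ} {R : Fin 3 → ℕ → V}
    (h : IsTheta G l R) (hl : ∀ r, 2 ≤ l r) {r r' : Fin 3} {i j : ℕ} (hi : i < l r) (hj : j < l r')
    (e : s(R r i, R r (i + 1)) = s(R r' j, R r' (j + 1))) : r = r' ∧ i = j := by
  have h2 := hl r
  have h2' := hl r'
  rcases Sym2.eq_iff.1 e with ⟨e1, e2⟩ | ⟨e1, e2⟩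
  · rcases h.inj r i r' j hi.le hj.le e1 with h3 | h3 | h3
    · exact h3
    · rcases h.inj r (i + 1) r' (j + 1) hi hj e2 with h4 | h4 | h4
      · exact ⟨h4.1, by omega⟩
      · omega
      · omega
    · omega
  · rcases h.inj r i r' (j + 1) hi.le hj e1 with h3 | h3 | h3
    · rcases h.inj r (i + 1) r' j hi hj.le e2 with h4 | h4 | h4
      · omega
      · omega
      · omega
    · omega
    · omega

open Classical in
theorem exists_weight {V : Type} {G : SimpleGraph V} {l : Fin 3 → ℕ} {R : Fin 3 → ℕ → V}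
    (h : IsTheta G l R) (hl : ∀ r, 2 ≤ l r) (X : Fin 3 → ℕ → ℝ)
    (hX : ∀ r i, i < l r → X r i < X r (i + 1)) :
    ∃ w : Sym2 V → ℝ, (∀ r i, i < l r → w s(R r i, R r (i + 1)) = X r (i + 1) - X r i) ∧
      ∀ e ∈ G.edgeSet, 0 < w e := by
  have key : ∀ e : Sym2 V, ∃ y : ℝ, ∀ r i, i < l r → e = s(R r i, R r (i + 1)) →
      y = X r (i + 1) - X r i := by
    intro e
    by_cases he : ∃ r i, i < l r ∧ e = s(R r i, R r (i + 1))
    · obtain ⟨r, i, hi, rfl⟩ := he
      refine ⟨X r (i + 1) - X r i, fun r' j hj e => ?_⟩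
      obtain ⟨rfl, rfl⟩ := edge_inj h hl hi hj e
      rfl
    · exact ⟨0, fun r i hi hh => absurd ⟨r, i, hi, hh⟩ he⟩
  choose w hw using key
  refine ⟨w, fun r i hi => hw _ r i hi rfl, fun e he => ?_⟩
  induction e using Sym2.ind with
  | _ x y =>
    rw [SimpleGraph.mem_edgeSet, h.adj] at he
    obtain ⟨r, i, hi, ⟨rfl, rfl⟩ | ⟨rfl, rfl⟩⟩ := he
    · rw [hw _ r i hi rfl]
      have := hX r i hi
      linarith
    · rw [hw _ r i hi Sym2.eq_swap]
      have := hX r i hi
      linarith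


/-- The `i`-th vertex of the route with `L` edges and the inner vertices `k, k + 1, ...`. -/
def node (k L i : ℕ) : ℕ := if i = 0 then 0 else if i = L then 1 else k + i - 1

theorem route_get (k L i : ℕ) (hL : 1 ≤ L) :
    (route k (L - 1))[i]? = if i ≤ L then some (node k L i) else none := by
  unfold route node
  rcases i with _ | i
  · simp
  · simp only [List.getElem?_cons_succ]
    by_cases h1 : i < L - 1
    · rw [List.getElem?_append_left (by simpa using h1), List.getElem?_range' h1]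
      have h2 : i + 1 ≤ L := by omega
      have h3 : ¬ (i + 1 = L) := by omega
      simp [h2, h3]
    · rw [List.getElem?_append_right (by simp; omega)]
      simp only [List.length_range']
      by_cases h4 : i + 1 = L
      · have h5 : i - (L - 1) = 0 := by omega
        rw [h5]
        simp [h4]
        omega
      · have h5 : ¬ (i + 1 ≤ L) := by omega
        rw [if_neg h5]
        rw [List.getElem?_eq_none]
        simp
        omega

theorem pair_infix (k L : ℕ) (hL : 1 ≤ L) (x y : ℕ) :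
    [x, y] <:+: route k (L - 1) ↔ ∃ i < L, x = node k L i ∧ y = node k L (i + 1) := by
  rw [List.infix_iff_getElem?]
  have hlen : (route k (L - 1)).length = L + 1 := by
    unfold route
    simp
    omega
  constructor
  · rintro ⟨i, hi, h⟩
    rw [hlen] at hi
    simp only [List.length_cons, List.length_nil] at hi
    have h0 := h 0 (by simp)
    have h1 := h 1 (by simp)
    rw [route_get k L _ hL] at h0 h1
    rw [if_pos (by omega)] at h0 h1
    simp only [List.getElem_cons_zero, List.getElem_cons_succ, Option.some.injEq] at h0 h1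
    refine ⟨i, by omega, ?_, ?_⟩
    · rw [← h0]; congr 1; omega
    · rw [← h1]; congr 1; omega
  · rintro ⟨i, hi, rfl, rfl⟩
    refine ⟨i, ?_, ?_⟩
    · rw [hlen]
      simp only [List.length_cons, List.length_nil]
      omega
    · intro j hj
      simp only [List.length_cons, List.length_nil] at hj
      rw [route_get k L _ hL, if_pos (by omega)]
      interval_cases j
      · simp
      · simp [add_comm]

/-- The first inner vertex of the route `r`. -/
def off (a b : ℕ) : Fin 3 → ℕ := ![2, a + 1, a + b]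

/-- The vertices of the routes of `theta a b c`. -/
def RR (a b c : ℕ) (h : 0 < a + b + c - 1) (r : Fin 3) (i : ℕ) : Fin (a + b + c - 1) :=
  ⟨node (off a b r) (![a, b, c] r) i % (a + b + c - 1), Nat.mod_lt _ h⟩

theorem RR_val (a b c : ℕ) (h : 0 < a + b + c - 1) (ha : 2 ≤ a) (hb : 2 ≤ b) (hc : 2 ≤ c)
    (r : Fin 3) (i : ℕ) (hi : i ≤ ![a, b, c] r) :
    (RR a b c h r i).val = node (off a b r) (![a, b, c] r) i := by
  unfold RR
  simp only
  apply Nat.mod_eq_of_lt
  unfold node
  fin_cases r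
  · simp [off] at hi ⊢
    split_ifs <;> omega
  · simp [off] at hi ⊢
    split_ifs <;> omega
  · simp [off] at hi ⊢
    split_ifs <;> omega

theorem node_inj (a b c : ℕ) (ha : 2 ≤ a) (hb : 2 ≤ b) (hc : 2 ≤ c) (r : Fin 3) (i : ℕ)
    (r' : Fin 3) (j : ℕ) (hi : i ≤ ![a, b, c] r) (hj : j ≤ ![a, b, c] r')
    (e : node (off a b r) (![a, b, c] r) i = node (off a b r') (![a, b, c] r') j) :
    (r = r' ∧ i = j) ∨ (i = 0 ∧ j = 0) ∨ (i = ![a, b, c] r ∧ j = ![a, b, c] r') := by
  unfold node at e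
  fin_cases r <;> fin_cases r' <;> simp [off] at hi hj e ⊢ <;> split_ifs at e <;> omega

theorem theta_adj (a b c : ℕ) (h : 0 < a + b + c - 1) (ha : 2 ≤ a) (hb : 2 ≤ b) (hc : 2 ≤ c)
    (x y : Fin (a + b + c - 1)) :
    ([(x : ℕ), (y : ℕ)] <:+: route 2 (a - 1) ∨
    [(x : ℕ), (y : ℕ)] <:+: route (a + 1) (b - 1) ∨
    [(x : ℕ), (y : ℕ)] <:+: route (a + b) (c - 1)) ↔
      ∃ r i, i < ![a, b, c] r ∧ x = RR a b c h r i ∧ y = RR a b c h r (i + 1) := by
  rw [pair_infix 2 a (by omega), pair_infix (a + 1) b (by omega), pair_infix (a + b) c (by omega)]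
  have hv := RR_val a b c h ha hb hc
  constructor
  · rintro (⟨i, hi, h1, h2⟩ | ⟨i, hi, h1, h2⟩ | ⟨i, hi, h1, h2⟩)
    · exact ⟨0, i, hi, Fin.ext (by rw [h1, hv 0 i hi.le]; rfl), Fin.ext (by rw [h2, hv 0 (i + 1) hi]; rfl)⟩
    · exact ⟨1, i, hi, Fin.ext (by rw [h1, hv 1 i hi.le]; rfl), Fin.ext (by rw [h2, hv 1 (i + 1) hi]; rfl)⟩
    · exact ⟨2, i, hi, Fin.ext (by rw [h1, hv 2 i hi.le]; rfl), Fin.ext (by rw [h2, hv 2 (i + 1) hi]; rfl)⟩
  · rintro ⟨r, i, hi, rfl, rfl⟩
    rw [hv r i hi.le, hv r (i + 1) hi]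
    fin_cases r
    · exact Or.inl ⟨i, hi, rfl, rfl⟩
    · exact Or.inr (Or.inl ⟨i, hi, rfl, rfl⟩)
    · exact Or.inr (Or.inr ⟨i, hi, rfl, rfl⟩)

theorem exists_isTheta (a b c : ℕ) (ha : 2 ≤ a) (hb : 2 ≤ b) (hc : 2 ≤ c) :
    ∃ R, IsTheta (theta a b c) ![a, b, c] R := by
  have h : 0 < a + b + c - 1 := by omega
  have hv := RR_val a b c h ha hb hc
  have hinj : ∀ r i r' j, i ≤ ![a, b, c] r → j ≤ ![a, b, c] r' →
      RR a b c h r i = RR a b c h r' j →
      (r = r' ∧ i = j) ∨ (i = 0 ∧ j = 0) ∨ (i = ![a, b, c] r ∧ j = ![a, b, c] r') := by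
    intro r i r' j hi hj e
    have e' := congrArg Fin.val e
    rw [hv r i hi, hv r' j hj] at e'
    exact node_inj a b c ha hb hc r i r' j hi hj e'
  refine ⟨RR a b c h, ?_, ?_, ?_, hinj, ?_⟩
  · intro r r'
    apply Fin.ext
    rw [hv r 0 (Nat.zero_le _), hv r' 0 (Nat.zero_le _)]
    simp [node]
  · intro r r'
    apply Fin.ext
    rw [hv r _ le_rfl, hv r' _ le_rfl]
    have hn : ∀ r : Fin 3, node (off a b r) (![a, b, c] r) (![a, b, c] r) = 1 := by
      intro r
      unfold node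
      fin_cases r <;> simp <;> omega
    rw [hn, hn]
  · intro v
    have hvn := v.isLt
    have hex : ∃ r i, i ≤ ![a, b, c] r ∧ node (off a b r) (![a, b, c] r) i = v.val := by
      by_cases h0 : v.val = 0
      · exact ⟨0, 0, Nat.zero_le _, by simp [node, h0]⟩
      by_cases h1 : v.val = 1
      · refine ⟨0, a, le_rfl, ?_⟩
        have : a ≠ 0 := by omega
        simp [node, h1, this]
      by_cases h2 : v.val ≤ a
      · refine ⟨0, v.val - 1, ?_, ?_⟩
        · show v.val - 1 ≤ a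
          omega
        · show node 2 a (v.val - 1) = v.val
          unfold node
          split_ifs <;> omega
      by_cases h3 : v.val ≤ a + b - 1
      · refine ⟨1, v.val - a, ?_, ?_⟩
        · show v.val - a ≤ b
          omega
        · show node (a + 1) b (v.val - a) = v.val
          unfold node
          split_ifs <;> omega
      · refine ⟨2, v.val + 1 - (a + b), ?_, ?_⟩
        · show v.val + 1 - (a + b) ≤ c
          omega
        · show node (a + b) c (v.val + 1 - (a + b)) = v.val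
          unfold node
          split_ifs <;> omega
    obtain ⟨r, i, hi, e⟩ := hex
    exact ⟨r, i, hi, Fin.ext (by rw [hv r i hi, e])⟩
  · intro x y
    unfold theta
    rw [SimpleGraph.fromRel_adj, theta_adj a b c h ha hb hc x y, theta_adj a b c h ha hb hc y x]
    constructor
    · rintro ⟨-, ⟨r, i, hi, h1, h2⟩ | ⟨r, i, hi, h1, h2⟩⟩
      · exact ⟨r, i, hi, Or.inl ⟨h1, h2⟩⟩
      · exact ⟨r, i, hi, Or.inr ⟨h1, h2⟩⟩
    · rintro ⟨r, i, hi, ⟨h1, h2⟩ | ⟨h1, h2⟩⟩
      · refine ⟨?_, Or.inl ⟨r, i, hi, h1, h2⟩⟩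
        rintro rfl
        have hl : 2 ≤ ![a, b, c] r := by fin_cases r <;> simpa
        rcases hinj r i r (i + 1) hi.le hi (h1.symm.trans h2) with h3 | h3 | h3 <;> omega
      · refine ⟨?_, Or.inr ⟨r, i, hi, h1, h2⟩⟩
        rintro rfl
        have hl : 2 ≤ ![a, b, c] r := by fin_cases r <;> simpa
        rcases hinj r i r (i + 1) hi.le hi (h1.symm.trans h2) with h3 | h3 | h3 <;> omega

end Pool.Agent.V8H44.TH
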