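import Pool.Agent.V8H44.TH.Edges
import Pool.Agent.V8H44.TH.Num
import Pool.Agent.V8H44.TH.Wt

/-!
Theta graphs with a route of two edges are metrizable.
-/

set_option autoImplicit false

namespace Pool.Agent.V8H44.TH

open Pool.Agent.V8H16.Theta

theorem metrizable_of_isTheta {V : Type} {G : SimpleGraph V} {l : Fin 3 → ℕ} {R : Fin 3 → ℕ → V}
    (h : IsTheta G l R) (hl0 : l 0 = 2) (hl : ∀ r, 2 ≤ l r) : Metrizable G := by
  intro P hP
  obtain ⟨r0, hr0⟩ := exists_r0 hP h hl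
  obtain ⟨X, δ, hδ, hX, hX0, hXδ, hXl, hty, hcr, hown⟩ := stmNum l r0 _ _ _ _ (dat hP h hl0 hl hr0)
  obtain ⟨w, hw, hpos⟩ := exists_weight h hl X hX
  refine ⟨w, hpos, ?_⟩
  have N : Num P l R r0 X δ w :=
    { dpos := hδ
      mono := hX
      zero := hX0
      top0 := hXδ
      top := hXl
      sty := fun r i h1 h2 => (hty r i h1 h2).1
      nsty := fun r i h1 h2 => (hty r i h1 h2).2.1
      tty := fun r i h1 h2 => (hty r i h1 h2).2.2.1
      ntty := fun r i h1 h2 => (hty r i h1 h2).2.2.2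
      cr := fun r i r' j hr h1 h2 h3 h4 h5 h6 => (hcr r i r' j hr h1 h2 h3 h4 h5 h6).1
      ncr := fun r i r' j hr h1 h2 h3 h4 h5 h6 => (hcr r i r' j hr h1 h2 h3 h4 h5 h6).2
      own := fun r i j h1 h2 h3 h4 h5 => (hown r i j h1 h2 h3 h4 h5).1
      nown := fun r i j h1 h2 h3 h4 h5 => (hown r i j h1 h2 h3 h4 h5).2
      hw := hw }
  exact induces hP h N hr0 hl0 hl

end Pool.Agent.V8H44.TH
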