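import Mathlib

/-!
Combinatorial data of a consistent path system of a theta graph `Θ_{2,b,c}`.
-/

set_option autoImplicit false

namespace Pool.Agent.V8H44.TH

/-- The data: `l r` is the number of edges of the route `r`; `r0` is the route which is the chosen
path from `s` to `t`; `sS r i`: the chosen path from `s` to the vertex `(r, i)` arrives from the side
of `s`; `tT r i`: the chosen path from `t` to `(r, i)` arrives from the side of `t`;
`C r i r' j`: the chosen path from `(r, i)` to `(r', j)` arrives from the side of `s` (`r ≠ r'`);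
`O r i j`: the chosen path from `(r, i)` to `(r, j)` is the direct one (`i < j`). -/
structure Dat (l : Fin 3 → ℕ) (r0 : Fin 3) (sS tT : Fin 3 → ℕ → Prop)
    (C : Fin 3 → ℕ → Fin 3 → ℕ → Prop) (O : Fin 3 → ℕ → ℕ → Prop) : Prop where
  l0 : l 0 = 2
  l2 : ∀ r, 2 ≤ l r
  r0s : ∀ i, 0 < i → i < l r0 → sS r0 i ∧ tT r0 i
  st : ∀ r i, 0 < i → i < l r → sS r i ∨ tT r i
  smono : ∀ r i j, 0 < i → i < j → j < l r → sS r j → sS r i
  tmono : ∀ r i j, 0 < i → i < j → j < l r → tT r i → tT r j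
  cs : ∀ r i r' j, r ≠ r' → 0 < i → i < l r → 0 < j → j < l r' → C r i r' j → sS r' j
  ct : ∀ r i r' j, r ≠ r' → 0 < i → i < l r → 0 < j → j < l r' → ¬ C r i r' j → tT r' j
  cmono : ∀ r i r' j j', r ≠ r' → 0 < i → i < l r → 0 < j → j < j' → j' < l r' →
    C r i r' j' → C r i r' j
  c3 : ∀ r i r' j, r ≠ r' → 0 < i → i < l r → 0 < j → j < l r' → C r i r' j →
    (C r' j r i ↔ sS r i)
  c3' : ∀ r i r' j, r ≠ r' → 0 < i → i < l r → 0 < j → j < l r' → ¬ C r i r' j →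
    (C r' j r i ↔ ¬ tT r i)
  o1 : ∀ r i j, 0 < i → i < j → j < l r → ¬ O r i j → ¬ tT r i ∧ ¬ sS r j
  omono : ∀ r i i' j' j, 0 < i → i ≤ i' → i' < j' → j' ≤ j → j < l r → O r i j → O r i' j'

/-- Existence of suitable coordinates. -/
def StmNum : Prop := ∀ (l : Fin 3 → ℕ) (r0 : Fin 3) (sS tT : Fin 3 → ℕ → Prop)
    (C : Fin 3 → ℕ → Fin 3 → ℕ → Prop) (O : Fin 3 → ℕ → ℕ → Prop), Dat l r0 sS tT C O →
  ∃ (X : Fin 3 → ℕ → ℝ) (δ : ℝ), 0 < δ ∧
    (∀ r i, i < l r → X r i < X r (i + 1)) ∧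
    (∀ r, X r 0 = - X r (l r)) ∧ X r0 (l r0) = δ ∧ (∀ r, δ ≤ X r (l r)) ∧
    (∀ r i, 0 < i → i < l r → (sS r i → X r i ≤ δ) ∧ (¬ sS r i → δ ≤ X r i) ∧
      (tT r i → -δ ≤ X r i) ∧ (¬ tT r i → X r i ≤ -δ)) ∧
    (∀ r i r' j, r ≠ r' → 0 < i → i < l r → 0 < j → j < l r' → sS r i → tT r i →
      (C r i r' j → X r i + X r' j ≤ 0) ∧ (¬ C r i r' j → 0 ≤ X r i + X r' j)) ∧
    (∀ r i j, 0 < i → i < j → j < l r → ¬ tT r i → ¬ sS r j →
      (O r i j → X r j - X r i ≤ X r (l r) + δ) ∧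
      (¬ O r i j → X r (l r) + δ ≤ X r j - X r i))

end Pool.Agent.V8H44.TH
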