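import Pool.Agent.V8H44.TH.Steps

/-!
The combinatorial data of a consistent path system of a theta graph.
-/

set_option autoImplicit false

namespace Pool.Agent.V8H44.TH

open Pool.Agent.V8H16.Theta

variable {V : Type} {G : SimpleGraph V} {l : Fin 3 → ℕ} {R : Fin 3 → ℕ → V}
variable {P : PathSystem G} (hP : Consistent P) (h : IsTheta G l R)

include hP h

lemma throughS {u : V} {r : Fin 3} {j : ℕ} (hj : j ≤ l r)
    (hne : ∀ i, 0 < i → i < j → u ≠ R r i) (hpv : pv P u (R r j) = some (R r (j - 1))) :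
    R r 0 ∈ P.path u (R r j) :=
  cs_up hP h (a := 0) (cs_down hP h hj hne hpv) j (Nat.zero_le _) (le_refl _)

lemma throughT {u : V} {r : Fin 3} {j : ℕ} (h0 : 0 < j) (hj : j ≤ l r)
    (hne : ∀ i, j < i → i < l r → u ≠ R r i) (hpv : pv P u (R r j) = some (R r (j + 1))) :
    R r (l r) ∈ P.path u (R r j) :=
  ct_down hP h (b := l r) (ct_up hP h (le_refl _) h0 hne hpv) j (le_refl _) hj

theorem dat (hl0 : l 0 = 2) (hl : ∀ r, 2 ≤ l r) {r0 : Fin 3}
    (hr0 : pv P (R r0 0) (R r0 (l r0)) = some (R r0 (l r0 - 1))) :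
    Dat l r0 (fun r i => pv P (R r 0) (R r i) = some (R r (i - 1)))
      (fun r i => pv P (R r (l r)) (R r i) = some (R r (i + 1)))
      (fun r i r' j => pv P (R r i) (R r' j) = some (R r' (j - 1)))
      (fun r i j => pv P (R r i) (R r j) = some (R r (j - 1))) := by
  have ne0 : ∀ r m, 0 < m → m < l r → R r 0 ≠ R r m := fun r m h1 h2 =>
    (inner_ne h h1 h2 (Nat.zero_le _) (fun _ => by omega)).symm
  have nel : ∀ r m, 0 < m → m < l r → R r (l r) ≠ R r m := fun r m h1 h2 =>
    (inner_ne h h1 h2 (le_refl _) (fun _ => by omega)).symm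
  have nec : ∀ r i r' j, r ≠ r' → 0 < i → i < l r → j ≤ l r' → R r i ≠ R r' j :=
    fun r i r' j hr h1 h2 h3 => inner_ne h h1 h2 h3 (fun e => absurd e hr)
  have startm : ∀ r i r' j, r ≠ r' → 0 < i → i < l r → 0 < j → j < l r' →
      pv P (R r i) (R r' j) = some (R r' (j - 1)) → R r 0 ∈ P.path (R r i) (R r' j) := by
    intro r i r' j hr h1 h2 h3 h4 hC
    rw [h.start r r']
    exact throughS hP h h4.le (fun m hm hm' => nec r i r' m hr h1 h2 (by omega)) hC
  have endm : ∀ r i r' j, r ≠ r' → 0 < i → i < l r → 0 < j → j < l r' →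
      ¬ pv P (R r i) (R r' j) = some (R r' (j - 1)) → R r (l r) ∈ P.path (R r i) (R r' j) := by
    intro r i r' j hr h1 h2 h3 h4 hC
    rw [h.finish r r']
    have hT := (dich hP h h3 h4 (nec r i r' j hr h1 h2 h4.le)).resolve_left hC
    exact throughT hP h h3 h4.le (fun m hm hm' => nec r i r' m hr h1 h2 (by omega)) hT
  refine ⟨hl0, hl, ?_, ?_, ?_, ?_, ?_, ?_, ?_, ?_, ?_, ?_, ?_⟩
  · -- r0s
    intro i h0 h1
    have hd := cs_down hP h (a := 0) (le_refl _) (fun m hm hm' => ne0 r0 m hm hm') hr0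
    refine ⟨hd i h0 h1.le, ?_⟩
    have h2 : R r0 (i + 1) ∈ P.path (R r0 0) (R r0 (l r0)) :=
      cs_up hP h (a := i + 1) (fun m hm hm' => hd m (by omega) hm') (l r0) h1 (le_refl _)
    exact pv_rev hP h2 (hd (i + 1) (by omega) h1)
  · -- st
    intro r i h0 h1
    by_cases hS : pv P (R r 0) (R r i) = some (R r (i - 1))
    · left; exact hS
    · right
      have hT := (dich hP h h0 h1 (ne0 r i h0 h1)).resolve_left hS
      have h2 := throughT hP h h0 h1.le (fun m hm hm' => ne0 r m (by omega) hm') hT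
      rw [pv_mem hP h2 (nel r i h0 h1)] at hT
      exact hT
  · -- smono
    intro r i j h0 h1 h2 hS
    exact cs_down hP h (a := 0) h2.le (fun m hm hm' => ne0 r m hm (by omega)) hS i h0 h1.le
  · -- tmono
    intro r i j h0 h1 h2 hT
    exact ct_up hP h (le_refl _) h0 (fun m hm hm' => nel r m (by omega) hm') hT j h1.le h2
  · -- cs
    intro r i r' j hr h1 h2 h3 h4 hC
    have h5 := startm r i r' j hr h1 h2 h3 h4 hC
    rw [h.start r r'] at h5
    show pv P (R r' 0) (R r' j) = some (R r' (j - 1))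
    rw [← pv_mem hP h5 (ne0 r' j h3 h4)]
    exact hC
  · -- ct
    intro r i r' j hr h1 h2 h3 h4 hC
    have h5 := endm r i r' j hr h1 h2 h3 h4 hC
    have hT := (dich hP h h3 h4 (nec r i r' j hr h1 h2 h4.le)).resolve_left hC
    rw [h.finish r r'] at h5
    show pv P (R r' (l r')) (R r' j) = some (R r' (j + 1))
    rw [← pv_mem hP h5 (nel r' j h3 h4)]
    exact hT
  · -- cmono
    intro r i r' j j' hr h1 h2 h3 h4 h5 hC
    exact cs_down hP h (a := 0) h5.le (fun m hm hm' => nec r i r' m hr h1 h2 (by omega)) hC j h3 h4.le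
  · -- c3
    intro r i r' j hr h1 h2 h3 h4 hC
    have h5 := mem_symm P (startm r i r' j hr h1 h2 h3 h4 hC)
    show pv P (R r' j) (R r i) = _ ↔ pv P (R r 0) (R r i) = _
    rw [pv_mem hP h5 (ne0 r i h1 h2)]
  · -- c3'
    intro r i r' j hr h1 h2 h3 h4 hC
    have h5 := mem_symm P (endm r i r' j hr h1 h2 h3 h4 hC)
    show pv P (R r' j) (R r i) = _ ↔ ¬ pv P (R r (l r)) (R r i) = _
    rw [pv_mem hP h5 (nel r i h1 h2)]
    constructor
    · intro h6
      exact not_both hP h h1 h2 h6
    · intro h6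
      exact (dich hP h h1 h2 (nel r i h1 h2)).resolve_right h6
  · -- o1
    intro r i j h0 h1 h2 hO
    constructor
    · intro hT
      exact hO (A1 hP h h0 (by omega) hT h1 h2.le)
    · intro hS
      have := A2 hP h (by omega) h2 hS h1
      exact hO ((dir hP h h0 h1 h2).mp this)
  · -- omono
    intro r i i' j' j h0 h1 h2 h3 h4 hO
    have hd := cs_down hP h (a := i) h4.le
      (fun m hm hm' => (inner_ne h (by omega) (by omega) (by omega) (fun _ => by omega)).symm) hO
    have h5 : R r i' ∈ P.path (R r i) (R r j') :=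
      cs_up hP h (a := i') (fun m hm hm' => hd m (by omega) (by omega)) j' h2.le h3
    show pv P (R r i') (R r j') = some (R r (j' - 1))
    rw [← pv_mem hP h5 (inner_ne h (by omega) (by omega) (by omega) (fun _ => by omega))]
    exact hd j' (by omega) h3

end Pool.Agent.V8H44.TH
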