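import Pool.Agent.V8H44.TH.Lip

/-!
The Lipschitz property on all edges.
-/

set_option autoImplicit false

namespace Pool.Agent.V8H44.TH

open Pool.Agent.V8H16.Theta

variable {V : Type} {G : SimpleGraph V}
variable {l : Fin 3 → ℕ} {R : Fin 3 → ℕ → V}
variable {P : PathSystem G} {r0 : Fin 3} {X : Fin 3 → ℕ → ℝ} {δ : ℝ} {w : Sym2 V → ℝ}
variable (hP : Consistent P) (h : IsTheta G l R) (N : Num P l R r0 X δ w)
  (hr0 : pv P (R r0 0) (R r0 (l r0)) = some (R r0 (l r0 - 1)))

include hP h N hr0

lemma edge_s {r : Fin 3} {j : ℕ} (hj : j < l r) :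
    |DI P w (R r 0) (R r j) - DI P w (R r 0) (R r (j + 1))| ≤ X r (j + 1) - X r j := by
  have e : DI P w (R r 0) (R r 0) - DI P w (R r 0) (R r (l r)) = - (2 * δ) := by
    rw [DI_self hP, D_st hP h N hr0]; ring
  have hδ := N.dpos
  apply edge_out hP h N hr0 hj
    (fun m hm hm' => (inner_ne h hm hm' (Nat.zero_le _) (fun _ => by omega)).symm)
  · intro h1 h2
    have := N.sty r j h1 hj h2
    rw [e]; linarith
  · intro h1 h2
    have := N.nsty r (j + 1) (by omega) h1 (by simpa using h2)
    rw [e]; linarith
  · rw [e, abs_neg, abs_of_pos (by linarith)]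

lemma edge_t {r : Fin 3} {j : ℕ} (hj : j < l r) :
    |DI P w (R r (l r)) (R r j) - DI P w (R r (l r)) (R r (j + 1))| ≤ X r (j + 1) - X r j := by
  have e : DI P w (R r (l r)) (R r 0) - DI P w (R r (l r)) (R r (l r)) = 2 * δ := by
    rw [DI_self hP, DI_comm, D_st hP h N hr0]; ring
  have hδ := N.dpos
  have nel : ∀ m, 0 < m → m < l r → R r (l r) ≠ R r m := fun m h1 h2 =>
    (inner_ne h h1 h2 (le_refl _) (fun _ => by omega)).symm
  apply edge_out hP h N hr0 hj nel
  · intro h1 h2
    have := N.ntty r j h1 hj (not_both hP h h1 hj h2)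
    rw [e]; linarith
  · intro h1 h2
    have h3 := (dich hP h (Nat.succ_pos j) h1 (nel _ (Nat.succ_pos j) h1)).resolve_left
      (by rw [Nat.succ_eq_add_one, Nat.add_sub_cancel]; exact h2)
    have := N.tty r (j + 1) (by omega) h1 h3
    rw [e]; linarith
  · rw [e, abs_of_pos (by linarith)]

lemma edge_other (hl0 : l 0 = 2) (hl : ∀ r, 2 ≤ l r) {r' : Fin 3} {i : ℕ} (h0 : 0 < i)
    (h1 : i < l r') {r : Fin 3} {j : ℕ} (hj : j < l r) (hr : r' ≠ r) :
    |DI P w (R r' i) (R r j) - DI P w (R r' i) (R r (j + 1))| ≤ X r (j + 1) - X r j := by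
  have T := dat hP h hl0 hl hr0
  have hδ := N.dpos
  have es := D_s hP h N hr0 h0 h1
  have et := D_t hP h N hr0 h0 h1
  rw [h.start r' r] at es
  rw [h.finish r' r] at et
  have hne : ∀ m, 0 < m → m < l r → R r' i ≠ R r m := fun m _ h3 =>
    inner_ne h h0 h1 h3.le (fun e => absurd e hr)
  by_cases hS : pv P (R r' 0) (R r' i) = some (R r' (i - 1))
  · by_cases hT : pv P (R r' (l r')) (R r' i) = some (R r' (i + 1))
    · -- active
      have e : DI P w (R r' i) (R r 0) - DI P w (R r' i) (R r (l r)) = 2 * X r' i := by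
        rw [es.1 (by rw [← h.start r' r]; exact hS), et.1 (by rw [← h.finish r' r]; exact hT)]
        ring
      have b1 := N.sty r' i h0 h1 hS
      have b2 := N.tty r' i h0 h1 hT
      apply edge_out hP h N hr0 hj hne
      · intro h2 h3
        have := N.cr r' i r j hr h0 h1 h2 hj hS hT h3
        rw [e]; linarith
      · intro h2 h3
        have := N.ncr r' i r (j + 1) hr h0 h1 (by omega) h2 hS hT (by simpa using h3)
        rw [e]; linarith
      · rw [e, abs_le]; constructor <;> linarith
    · -- S-type
      have e : DI P w (R r' i) (R r 0) - DI P w (R r' i) (R r (l r)) = - (2 * δ) := by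
        rw [es.1 (by rw [← h.start r' r]; exact hS), et.2 (by rw [← h.finish r' r]; exact hT)]
        ring
      apply edge_out hP h N hr0 hj hne
      · intro h2 h3
        have h4 := T.cs r' i r j hr h0 h1 h2 hj h3
        have := N.sty r j h2 hj h4
        rw [e]; linarith
      · intro h2 h3
        have h3' : ¬ pv P (R r' i) (R r (j + 1)) = some (R r (j + 1 - 1)) := by simpa using h3
        have h4 := (T.c3' r' i r (j + 1) hr h0 h1 (by omega) h2 h3').mpr hT
        have h5 := T.c3 r (j + 1) r' i hr.symm (by omega) h2 h0 h1 h4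
        have h6 : ¬ pv P (R r 0) (R r (j + 1)) = some (R r (j + 1 - 1)) := fun h7 => h3' (h5.mpr h7)
        have := N.nsty r (j + 1) (by omega) h2 h6
        rw [e]; linarith
      · rw [e, abs_neg, abs_of_pos (by linarith)]
  · -- T-type
    have hT := (T.st r' i h0 h1).resolve_left hS
    have e : DI P w (R r' i) (R r 0) - DI P w (R r' i) (R r (l r)) = 2 * δ := by
      rw [es.2 (by rw [← h.start r' r]; exact hS), et.1 (by rw [← h.finish r' r]; exact hT)]
      ring
    apply edge_out hP h N hr0 hj hne
    · intro h2 h3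
      have h4 : ¬ pv P (R r j) (R r' i) = some (R r' (i - 1)) := fun h5 =>
        hS ((T.c3 r' i r j hr h0 h1 h2 hj h3).mp h5)
      have h5 := (T.c3' r j r' i hr.symm h2 hj h0 h1 h4).mp h3
      have := N.ntty r j h2 hj h5
      rw [e]; linarith
    · intro h2 h3
      have h3' : ¬ pv P (R r' i) (R r (j + 1)) = some (R r (j + 1 - 1)) := by simpa using h3
      have h4 := T.ct r' i r (j + 1) hr h0 h1 (by omega) h2 h3'
      have := N.tty r (j + 1) (by omega) h2 h4
      rw [e]; linarith
    · rw [e, abs_of_pos (by linarith)]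

lemma edge_own (hl0 : l 0 = 2) (hl : ∀ r, 2 ≤ l r) {r : Fin 3} {i j : ℕ} (h0 : 0 < i)
    (h1 : i < l r) (hj : j < l r) :
    |DI P w (R r i) (R r j) - DI P w (R r i) (R r (j + 1))| ≤ X r (j + 1) - X r j := by
  have T := dat hP h hl0 hl hr0
  have hδ := N.dpos
  have hm := N.mono r j hj
  have htop := N.top r
  have hz := N.zero r
  by_cases hA : pv P (R r i) (R r (j + 1)) = some (R r j)
  · rw [DI_pv hP w hA, N.hw r j hj, abs_le]
    constructor <;> linarith
  by_cases hB : pv P (R r i) (R r j) = some (R r (j + 1))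
  · rw [DI_pv hP w hB, Sym2.eq_swap, N.hw r j hj, abs_le]
    constructor <;> linarith
  rcases Nat.lt_or_ge j i with hij | hij
  · -- `j + 1 ≤ i`
    have nS : ¬ pv P (R r 0) (R r i) = some (R r (i - 1)) := fun hS =>
      hB (A2 hP h h0 h1 hS hij)
    have hi' := N.nsty r i h0 h1 nS
    have eT : DI P w (R r i) (R r (j + 1)) = X r i - X r (j + 1) ∧
        X r i - X r (j + 1) ≤ X r (l r) + δ := by
      rcases Nat.eq_or_lt_of_le (Nat.succ_le_of_lt hij) with e | hij'
      · have e' : j + 1 = i := e
        rw [e', DI_self hP]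
        constructor
        · ring
        · linarith
      · have hij'' : j + 1 < i := hij'
        have hj1 : j + 1 < l r := by omega
        have hT := (dich hP h (Nat.succ_pos j) hj1
          (inner_ne h h0 h1 hj1.le (fun _ => by omega))).resolve_left
          (by rw [Nat.succ_eq_add_one, Nat.add_sub_cancel]; exact hA)
        have hd := ct_up hP h h1.le (Nat.succ_pos j)
          (fun m hm hm' => inner_ne h h0 h1 (by omega) (fun _ => by omega)) hT
        constructor
        · rw [ct_D hP h h1.le N.hw hd (j + 1) (le_refl _) hij''.le, DI_self hP]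
          ring
        · by_cases htt : pv P (R r (l r)) (R r (j + 1)) = some (R r (j + 1 + 1))
          · have a1 := N.tty r (j + 1) (by omega) (by omega) htt
            have a2 := N.le h1.le (le_refl _)
            linarith
          · exact N.own r (j + 1) i (by omega) hij'' h1 htt nS
              ((dir hP h (Nat.succ_pos j) hij'' h1).mp hT)
    have eS : DI P w (R r i) (R r j) = DI P w (R r i) (R r 0) + X r j - X r 0 ∧
        X r (l r) + δ ≤ X r i - X r j := by
      rcases Nat.eq_zero_or_pos j with rfl | hj0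
      · constructor
        · ring
        · linarith
      · have hS := (dich hP h hj0 hj
          (inner_ne h h0 h1 (by omega) (fun _ => by omega))).resolve_right hB
        have hd := cs_down hP h (a := 0) hj.le
          (fun m hm hm' => inner_ne h h0 h1 (by omega) (fun _ => by omega)) hS
        refine ⟨cs_D hP h (a := 0) hj.le N.hw hd j (Nat.zero_le _) (le_refl _), ?_⟩
        have nO : ¬ pv P (R r j) (R r i) = some (R r (i - 1)) := fun hO =>
          hB ((dir hP h hj0 hij h1).mpr hO)
        have o := T.o1 r j i hj0 hij h1 nO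
        exact N.nown r j i hj0 hij h1 o.1 o.2 nO
    have e3 := (D_s hP h N hr0 h0 h1).2 nS
    rw [eT.1, eS.1, e3, abs_le]
    constructor <;> linarith [eT.2, eS.2]
  · -- `i ≤ j`
    have nT : ¬ pv P (R r (l r)) (R r i) = some (R r (i + 1)) := fun hT =>
      hA (A1 hP h h0 h1 hT (k := j + 1) (by omega) hj)
    have hi' := N.ntty r i h0 h1 nT
    have eS : DI P w (R r i) (R r j) = X r j - X r i ∧ X r j - X r i ≤ X r (l r) + δ := by
      rcases Nat.eq_or_lt_of_le hij with e | hij'
      · rw [← e, DI_self hP]
        constructor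
        · ring
        · linarith
      · have hS := (dich hP h (by omega) hj
          (inner_ne h h0 h1 (by omega) (fun _ => by omega))).resolve_right hB
        have hd := cs_down hP h (a := i) hj.le
          (fun m hm hm' => inner_ne h h0 h1 (by omega) (fun _ => by omega)) hS
        constructor
        · rw [cs_D hP h (a := i) hj.le N.hw hd j hij (le_refl _), DI_self hP]
          ring
        · by_cases hss : pv P (R r 0) (R r j) = some (R r (j - 1))
          · have a1 := N.sty r j (by omega) hj hss
            have a2 := N.le (Nat.zero_le i) h1.le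
            linarith
          · exact N.own r i j h0 hij' hj nT hss hS
    have eT : DI P w (R r i) (R r (j + 1)) = DI P w (R r i) (R r (l r)) + X r (l r) - X r (j + 1) ∧
        X r (l r) + δ ≤ X r (j + 1) - X r i := by
      rcases Nat.eq_or_lt_of_le (Nat.succ_le_of_lt hj) with e | hj1
      · have e' : j + 1 = l r := e
        rw [e']
        constructor
        · ring
        · linarith
      · have hj1' : j + 1 < l r := hj1
        have hT := (dich hP h (Nat.succ_pos j) hj1'
          (inner_ne h h0 h1 (by omega) (fun _ => by omega))).resolve_left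
          (by rw [Nat.succ_eq_add_one, Nat.add_sub_cancel]; exact hA)
        have hd := ct_up hP h (le_refl _) (Nat.succ_pos j)
          (fun m hm hm' => inner_ne h h0 h1 (by omega) (fun _ => by omega)) hT
        refine ⟨ct_D hP h (le_refl _) N.hw hd (j + 1) (le_refl _) hj1'.le, ?_⟩
        have nO : ¬ pv P (R r i) (R r (j + 1)) = some (R r (j + 1 - 1)) := by simpa using hA
        have o := T.o1 r i (j + 1) h0 (by omega) hj1' nO
        exact N.nown r i (j + 1) h0 (by omega) hj1' o.1 o.2 nO
    have e3 := (D_t hP h N hr0 h0 h1).2 nT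
    rw [eT.1, eS.1, e3, abs_le]
    constructor <;> linarith [eT.2, eS.2]

lemma edge_all (hl0 : l 0 = 2) (hl : ∀ r, 2 ≤ l r) (u : V) {r : Fin 3} {j : ℕ} (hj : j < l r) :
    |DI P w u (R r j) - DI P w u (R r (j + 1))| ≤ X r (j + 1) - X r j := by
  obtain ⟨r', i, hi, rfl⟩ := h.cover u
  rcases Nat.eq_zero_or_pos i with rfl | h0
  · rw [h.start r' r]
    exact edge_s hP h N hr0 hj
  rcases Nat.eq_or_lt_of_le hi with rfl | h1
  · rw [h.finish r' r]
    exact edge_t hP h N hr0 hj
  by_cases hr : r' = r
  · subst hr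
    exact edge_own hP h N hr0 hl0 hl h0 h1 hj
  · exact edge_other hP h N hr0 hl0 hl h0 h1 hj hr

theorem induces (hl0 : l 0 = 2) (hl : ∀ r, 2 ≤ l r) : Induces w P := by
  apply induces_of_lip hP
  intro u x y hxy
  obtain ⟨r, j, hj, ⟨rfl, rfl⟩ | ⟨rfl, rfl⟩⟩ := (h.adj _ _).mp hxy
  · have := edge_all hP h N hr0 hl0 hl u hj
    rw [abs_le] at this
    rw [N.hw r j hj]
    linarith [this.1]
  · have := edge_all hP h N hr0 hl0 hl u hj
    rw [abs_le] at this
    rw [Sym2.eq_swap, N.hw r j hj]
    linarith [this.2]

end Pool.Agent.V8H44.TH
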