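import Pool.Agent.V8H44.TH.DatProof

/-!
The distances of a theta graph with weights from coordinates.
-/

set_option autoImplicit false

namespace Pool.Agent.V8H44.TH

open Pool.Agent.V8H16.Theta

variable {V : Type} {G : SimpleGraph V}

/-- The properties of the coordinates `X` and of the weights `w`. -/
structure Num (P : PathSystem G) (l : Fin 3 → ℕ) (R : Fin 3 → ℕ → V) (r0 : Fin 3)
    (X : Fin 3 → ℕ → ℝ) (δ : ℝ) (w : Sym2 V → ℝ) : Prop where
  dpos : 0 < δ
  mono : ∀ r i, i < l r → X r i < X r (i + 1)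
  zero : ∀ r, X r 0 = - X r (l r)
  top0 : X r0 (l r0) = δ
  top : ∀ r, δ ≤ X r (l r)
  sty : ∀ r i, 0 < i → i < l r → pv P (R r 0) (R r i) = some (R r (i - 1)) → X r i ≤ δ
  nsty : ∀ r i, 0 < i → i < l r → ¬ pv P (R r 0) (R r i) = some (R r (i - 1)) → δ ≤ X r i
  tty : ∀ r i, 0 < i → i < l r → pv P (R r (l r)) (R r i) = some (R r (i + 1)) → -δ ≤ X r i
  ntty : ∀ r i, 0 < i → i < l r → ¬ pv P (R r (l r)) (R r i) = some (R r (i + 1)) → X r i ≤ -δ
  cr : ∀ r i r' j, r ≠ r' → 0 < i → i < l r → 0 < j → j < l r' →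
    pv P (R r 0) (R r i) = some (R r (i - 1)) → pv P (R r (l r)) (R r i) = some (R r (i + 1)) →
    pv P (R r i) (R r' j) = some (R r' (j - 1)) → X r i + X r' j ≤ 0
  ncr : ∀ r i r' j, r ≠ r' → 0 < i → i < l r → 0 < j → j < l r' →
    pv P (R r 0) (R r i) = some (R r (i - 1)) → pv P (R r (l r)) (R r i) = some (R r (i + 1)) →
    ¬ pv P (R r i) (R r' j) = some (R r' (j - 1)) → 0 ≤ X r i + X r' j
  own : ∀ r i j, 0 < i → i < j → j < l r →
    ¬ pv P (R r (l r)) (R r i) = some (R r (i + 1)) →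
    ¬ pv P (R r 0) (R r j) = some (R r (j - 1)) →
    pv P (R r i) (R r j) = some (R r (j - 1)) → X r j - X r i ≤ X r (l r) + δ
  nown : ∀ r i j, 0 < i → i < j → j < l r →
    ¬ pv P (R r (l r)) (R r i) = some (R r (i + 1)) →
    ¬ pv P (R r 0) (R r j) = some (R r (j - 1)) →
    ¬ pv P (R r i) (R r j) = some (R r (j - 1)) → X r (l r) + δ ≤ X r j - X r i
  hw : ∀ r i, i < l r → w s(R r i, R r (i + 1)) = X r (i + 1) - X r i

variable {l : Fin 3 → ℕ} {R : Fin 3 → ℕ → V}
variable {P : PathSystem G} {r0 : Fin 3} {X : Fin 3 → ℕ → ℝ} {δ : ℝ} {w : Sym2 V → ℝ}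

lemma Num.le (N : Num P l R r0 X δ w) {r : Fin 3} {i j : ℕ} (hij : i ≤ j) (hj : j ≤ l r) :
    X r i ≤ X r j := by
  induction j, hij using Nat.le_induction with
  | base => exact le_refl _
  | succ j hij ih => exact (ih (by omega)).trans (N.mono r j (by omega)).le

variable (hP : Consistent P) (h : IsTheta G l R) (N : Num P l R r0 X δ w)
  (hr0 : pv P (R r0 0) (R r0 (l r0)) = some (R r0 (l r0 - 1)))

include hP h N hr0

lemma D_st (r : Fin 3) : DI P w (R r 0) (R r (l r)) = 2 * δ := by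
  rw [h.start r r0, h.finish r r0]
  have hd := cs_down hP h (a := 0) (le_refl _) (fun m hm hm' =>
    (inner_ne h hm hm' (Nat.zero_le _) (fun _ => by omega)).symm) hr0
  rw [cs_D hP h (a := 0) (le_refl _) N.hw hd (l r0) (Nat.zero_le _) (le_refl _), DI_self hP,
    N.zero, N.top0]
  ring

lemma D_s {r : Fin 3} {i : ℕ} (h0 : 0 < i) (h1 : i < l r) :
    (pv P (R r 0) (R r i) = some (R r (i - 1)) → DI P w (R r i) (R r 0) = X r i + X r (l r)) ∧
    (¬ pv P (R r 0) (R r i) = some (R r (i - 1)) →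
      DI P w (R r i) (R r 0) = 2 * δ + X r (l r) - X r i) := by
  have ne0 : ∀ m, 0 < m → m < l r → R r 0 ≠ R r m := fun m h1 h2 =>
    (inner_ne h h1 h2 (Nat.zero_le _) (fun _ => by omega)).symm
  rw [DI_comm]
  constructor
  · intro hS
    have hd := cs_down hP h (a := 0) h1.le (fun m hm hm' => ne0 m hm (by omega)) hS
    rw [cs_D hP h (a := 0) h1.le N.hw hd i (Nat.zero_le _) (le_refl _), DI_self hP, N.zero]
    ring
  · intro hS
    have hT := (dich hP h h0 h1 (ne0 i h0 h1)).resolve_left hS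
    have hd := ct_up hP h (le_refl _) h0 (fun m hm hm' => ne0 m (by omega) hm') hT
    rw [ct_D hP h (le_refl _) N.hw hd i (le_refl _) h1.le, D_st hP h N hr0]

lemma D_t {r : Fin 3} {i : ℕ} (h0 : 0 < i) (h1 : i < l r) :
    (pv P (R r (l r)) (R r i) = some (R r (i + 1)) →
      DI P w (R r i) (R r (l r)) = X r (l r) - X r i) ∧
    (¬ pv P (R r (l r)) (R r i) = some (R r (i + 1)) →
      DI P w (R r i) (R r (l r)) = 2 * δ + X r i + X r (l r)) := by
  have nel : ∀ m, 0 < m → m < l r → R r (l r) ≠ R r m := fun m h1 h2 =>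
    (inner_ne h h1 h2 (le_refl _) (fun _ => by omega)).symm
  rw [DI_comm]
  constructor
  · intro hT
    have hd := ct_up hP h (le_refl _) h0 (fun m hm hm' => nel m (by omega) hm') hT
    rw [ct_D hP h (le_refl _) N.hw hd i (le_refl _) h1.le, DI_self hP]
    ring
  · intro hT
    have hS := (dich hP h h0 h1 (nel i h0 h1)).resolve_right hT
    have hd := cs_down hP h (a := 0) h1.le (fun m hm hm' => nel m hm (by omega)) hS
    rw [cs_D hP h (a := 0) h1.le N.hw hd i (Nat.zero_le _) (le_refl _), DI_comm,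
      D_st hP h N hr0, N.zero]
    ring

/-- Edges of a route which does not contain `u` as an inner vertex. -/
lemma edge_out {u : V} {r : Fin 3} {j : ℕ} (hj : j < l r)
    (hu : ∀ m, 0 < m → m < l r → u ≠ R r m)
    (h1 : 0 < j → pv P u (R r j) = some (R r (j - 1)) →
      DI P w u (R r 0) - DI P w u (R r (l r)) + 2 * X r j ≤ 0)
    (h2 : j + 1 < l r → ¬ pv P u (R r (j + 1)) = some (R r j) →
      0 ≤ DI P w u (R r 0) - DI P w u (R r (l r)) + 2 * X r (j + 1))
    (h3 : |DI P w u (R r 0) - DI P w u (R r (l r))| ≤ 2 * δ) :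
    |DI P w u (R r j) - DI P w u (R r (j + 1))| ≤ X r (j + 1) - X r j := by
  have hm := N.mono r j hj
  by_cases hA : pv P u (R r (j + 1)) = some (R r j)
  · rw [DI_pv hP w hA, N.hw r j hj, abs_le]
    constructor <;> linarith
  by_cases hB : pv P u (R r j) = some (R r (j + 1))
  · rw [DI_pv hP w hB, Sym2.eq_swap, N.hw r j hj, abs_le]
    constructor <;> linarith
  rw [abs_le] at h3
  have htop := N.top r
  have hz := N.zero r
  have eS : DI P w u (R r j) = DI P w u (R r 0) + X r j - X r 0 ∧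
      DI P w u (R r 0) - DI P w u (R r (l r)) + 2 * X r j ≤ 0 := by
    rcases Nat.eq_zero_or_pos j with rfl | hj0
    · constructor
      · ring
      · linarith [h3.2]
    · have hS := (dich hP h hj0 hj (hu j hj0 hj)).resolve_right hB
      have hd := cs_down hP h (a := 0) hj.le (fun m hm hm' => hu m hm (by omega)) hS
      exact ⟨cs_D hP h (a := 0) hj.le N.hw hd j (Nat.zero_le _) (le_refl _), h1 hj0 hS⟩
  have eT : DI P w u (R r (j + 1)) = DI P w u (R r (l r)) + X r (l r) - X r (j + 1) ∧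
      0 ≤ DI P w u (R r 0) - DI P w u (R r (l r)) + 2 * X r (j + 1) := by
    rcases Nat.eq_or_lt_of_le (Nat.succ_le_of_lt hj) with e | hj1
    · have e' : j + 1 = l r := e
      rw [e']
      constructor
      · ring
      · linarith [h3.1]
    · have hj1' : j + 1 < l r := hj1
      have hT := (dich hP h (Nat.succ_pos j) hj1' (hu (j + 1) (Nat.succ_pos j) hj1')).resolve_left
        (by rw [Nat.succ_eq_add_one, Nat.add_sub_cancel]; exact hA)
      have hd := ct_up hP h (le_refl _) (Nat.succ_pos j) (fun m hm hm' => hu m (by omega) hm') hT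
      exact ⟨ct_D hP h (le_refl _) N.hw hd (j + 1) (le_refl _) hj1'.le, h2 hj1' hA⟩
  obtain ⟨e1, k1⟩ := eS
  obtain ⟨e2, k2⟩ := eT
  rw [e1, e2, abs_le]
  constructor <;> linarith

end Pool.Agent.V8H44.TH
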