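import Pool.Agent.V8H16.Theta.Defs

/-!
Consistent path systems: last steps.
-/

set_option autoImplicit false

namespace Pool.Agent.V8H44.TH

open Pool.Agent.V8H16.Theta

variable {V : Type} {G : SimpleGraph V} (P : PathSystem G)

/-- The last but one vertex of the chosen path from `u` to `v`. -/
def pv (u v : V) : Option V := (P.path u v).dropLast.getLast?

lemma isPath_single (u : V) : IsPathFrom G u u [u] :=
  ⟨List.isChain_singleton u, List.nodup_singleton u, rfl, rfl⟩

lemma infix_single {u : V} {l : List V} (h : u ∈ l) : [u] <:+: l := by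
  obtain ⟨A, B, rfl⟩ := List.append_of_mem h
  exact ⟨A, B, by simp⟩

lemma ne_nil (u v : V) : P.path u v ≠ [] := by
  intro h
  have := (P.isPath u v).2.2.1
  rw [h] at this
  simp at this

lemma head_eq (u v : V) : ∃ l, P.path u v = u :: l := by
  have := (P.isPath u v).2.2.1
  cases hl : P.path u v with
  | nil => exact absurd hl (ne_nil P u v)
  | cons a l =>
    rw [hl] at this
    simp at this
    exact ⟨l, by rw [this]⟩

lemma last_eq (u v : V) : ∃ l, P.path u v = l ++ [v] := by
  have := (P.isPath u v).2.2.2
  exact ⟨(P.path u v).dropLast, by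
    have h := List.dropLast_append_getLast? v (by rw [this]; rfl)
    exact h.symm⟩

lemma left_mem (u v : V) : u ∈ P.path u v := by
  obtain ⟨l, hl⟩ := head_eq P u v
  rw [hl]; simp

lemma right_mem (u v : V) : v ∈ P.path u v := by
  obtain ⟨l, hl⟩ := last_eq P u v
  rw [hl]; simp

lemma nodup (u v : V) : (P.path u v).Nodup := (P.isPath u v).2.1

lemma mem_symm {u v x : V} (h : x ∈ P.path u v) : x ∈ P.path v u := by
  rw [P.symm u v, List.mem_reverse]; exact h

omit P in
omit G in
lemma split_unique : ∀ (A B : List V) (p : V) (C D : List V), p ∉ A → p ∉ B →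
    A ++ p :: C = B ++ p :: D → A = B ∧ C = D
  | [], [], p, C, D, _, _, h => by simpa using h
  | [], b :: B, p, C, D, _, h2, h => by
    exfalso
    simp at h h2
    exact h2.1 h.1
  | a :: A, [], p, C, D, h1, _, h => by
    exfalso
    simp at h h1
    exact h1.1 h.1.symm
  | a :: A, b :: B, p, C, D, h1, h2, h => by
    simp only [List.cons_append, List.cons.injEq] at h
    simp only [List.mem_cons, not_or] at h1 h2
    have := split_unique A B p C D h1.2 h2.2 h.2
    exact ⟨by rw [h.1, this.1], this.2⟩

variable {P} (hP : Consistent P)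

include hP

lemma path_self (u : V) : P.path u u = [u] :=
  (hP u u u u [u] (infix_single (left_mem P u u)) (isPath_single u)).symm

/-- Splitting a chosen path. -/
lemma split {u v x : V} (h : x ∈ P.path u v) :
    ∃ l2, P.path u v = P.path u x ++ l2 ∧ P.path x v = x :: l2 := by
  obtain ⟨A, B, hAB⟩ := List.append_of_mem h
  obtain ⟨h1, h2, h3, h4⟩ := P.isPath u v
  rw [hAB] at h1 h2 h3 h4
  have e1 : A ++ x :: B = (A ++ [x]) ++ B := by simp
  have p1 : IsPathFrom G u x (A ++ [x]) := by
    refine ⟨?_, ?_, ?_, ?_⟩
    · rw [e1] at h1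
      exact (List.isChain_append.mp h1).1
    · rw [e1] at h2
      exact (List.nodup_append.mp h2).1
    · cases A with
      | nil => simpa using h3
      | cons a A => simpa using h3
    · simp
  have p2 : IsPathFrom G x v (x :: B) := by
    refine ⟨?_, ?_, ?_, ?_⟩
    · exact (List.isChain_append.mp h1).2.1
    · exact (List.nodup_append.mp h2).2.1
    · simp
    · rw [← h4, List.getLast?_append, List.getLast?_cons]
      simp
  have q1 : A ++ [x] = P.path u x := hP u v u x _ ⟨[], B, by rw [hAB]; simp⟩ p1
  have q2 : x :: B = P.path x v := hP u v x v _ ⟨A, [], by rw [hAB]; simp⟩ p2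
  exact ⟨B, by rw [hAB, ← q1]; simp, q2.symm⟩

lemma pv_path {u v p : V} (h : pv P u v = some p) :
    G.Adj p v ∧ P.path u v = P.path u p ++ [v] := by
  obtain ⟨l, hl⟩ := last_eq P u v
  unfold pv at h
  rw [hl, List.dropLast_concat] at h
  have hp : p ∈ P.path u v := by
    rw [hl]
    exact List.mem_append_left _ (List.mem_of_getLast? h)
  obtain ⟨l2, h1, h2⟩ := split hP hp
  obtain ⟨l', rfl⟩ : ∃ l', l = l' ++ [p] :=
    ⟨l.dropLast, (List.dropLast_append_getLast? p h).symm⟩
  have hnd := nodup P u v
  have h3 : P.path u v = l' ++ p :: [v] := by rw [hl]; simp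
  obtain ⟨A, hA⟩ := last_eq P u p
  have h4 : P.path u v = A ++ p :: l2 := by rw [h1, hA]; simp
  have h5 : A = l' ∧ p :: l2 = p :: [v] := by
    rw [h3] at h4
    rw [h3] at hnd
    have h6 : p ∉ l' := by
      intro hm
      have := (List.nodup_append.mp hnd).2.2 p hm p (by simp)
      exact this rfl
    have h7 : p ∉ A := by
      intro hm
      rw [h4] at hnd
      have := (List.nodup_append.mp hnd).2.2 p hm p (by simp)
      exact this rfl
    have h8 := split_unique l' A p [v] l2 h6 h7 h4
    exact ⟨h8.1.symm, by rw [h8.2]⟩
  obtain ⟨h5, h6⟩ := h5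
  have h7 : l2 = [v] := by simpa using h6
  refine ⟨?_, by rw [h1, h7]⟩
  have := (P.isPath u v).1
  rw [h3] at this
  have := (List.isChain_append.mp this).2.1
  simpa using this

lemma exists_pv {u v : V} (h : u ≠ v) : ∃ p, pv P u v = some p := by
  obtain ⟨l, hl⟩ := last_eq P u v
  unfold pv
  rw [hl, List.dropLast_concat]
  cases l using List.reverseRecOn with
  | nil =>
    obtain ⟨l', hl'⟩ := head_eq P u v
    rw [hl] at hl'
    simp at hl'
    exact absurd hl'.1.symm h
  | append_singleton l a => exact ⟨a, by simp⟩

lemma pv_length {u v p : V} (h : pv P u v = some p) :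
    (P.path u v).length = (P.path u p).length + 1 := by
  rw [(pv_path hP h).2]; simp

lemma pv_mem {u v x : V} (h : x ∈ P.path u v) (hx : x ≠ v) : pv P u v = pv P x v := by
  obtain ⟨l2, h1, h2⟩ := split hP h
  obtain ⟨A, hA⟩ := last_eq P u x
  unfold pv
  rw [h1, h2, hA]
  cases l2 using List.reverseRecOn with
  | nil =>
    exfalso
    have := (P.isPath x v).2.2.2
    rw [h2] at this
    simp at this
    exact hx this
  | append_singleton l a =>
    rw [← List.append_assoc, List.dropLast_concat]
    have : x :: (l ++ [a]) = (x :: l) ++ [a] := by simp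
    rw [this, List.dropLast_concat, List.append_assoc, List.getLast?_append]
    rw [List.singleton_append, List.getLast?_cons]
    simp

/-- Reversal. -/
lemma pv_rev {t u x y : V} (h : x ∈ P.path t u) (hy : pv P t x = some y) :
    pv P u y = some x := by
  obtain ⟨l2, h1, h2⟩ := split hP h
  have h3 := (pv_path hP hy).2
  have hyt : y ∈ P.path t u := by
    rw [h1, h3]
    exact List.mem_append_left _ (List.mem_append_left _ (right_mem P t y))
  obtain ⟨l3, h4, h5⟩ := split hP hyt
  have h6 : l3 = x :: l2 := by
    rw [h1, h3] at h4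
    have : P.path t y ++ (x :: l2) = P.path t y ++ l3 := by simpa using h4
    exact (List.append_cancel_left this).symm
  have h7 : P.path u y = l2.reverse ++ [x] ++ [y] := by
    rw [P.symm y u, h5, h6]; simp
  unfold pv
  rw [h7, List.dropLast_concat]
  simp

omit hP in
lemma weight_append (w : Sym2 V → ℝ) (A : List V) (x : V) (B : List V) :
    weight w (A ++ x :: B) = weight w (A ++ [x]) + weight w (x :: B) := by
  induction A with
  | nil => simp [weight]
  | cons a A ih =>
    cases A with
    | nil => simp [weight]
    | cons b A =>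
      simp only [List.cons_append, weight] at ih ⊢
      rw [ih]; ring

omit hP in
lemma weight_reverse (w : Sym2 V → ℝ) (A : List V) : weight w A.reverse = weight w A := by
  induction A with
  | nil => rfl
  | cons a A ih =>
    cases A with
    | nil => rfl
    | cons b A =>
      rw [List.reverse_cons, List.reverse_cons, List.append_assoc, List.singleton_append,
        weight_append, ← List.reverse_cons, ih]
      simp only [weight, Sym2.eq_swap (a := b) (b := a)]
      ring

/-- Weight of the chosen path. -/
noncomputable def DI (P : PathSystem G) (w : Sym2 V → ℝ) (u v : V) : ℝ := weight w (P.path u v)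

omit hP in
lemma DI_comm (w : Sym2 V → ℝ) (u v : V) : DI P w u v = DI P w v u := by
  unfold DI
  rw [P.symm u v, weight_reverse]

lemma DI_self (w : Sym2 V → ℝ) (u : V) : DI P w u u = 0 := by
  unfold DI
  rw [path_self hP]; rfl

lemma DI_split (w : Sym2 V → ℝ) {u v x : V} (h : x ∈ P.path u v) :
    DI P w u v = DI P w u x + DI P w x v := by
  obtain ⟨l2, h1, h2⟩ := split hP h
  obtain ⟨A, hA⟩ := last_eq P u x
  unfold DI
  rw [h2, h1, hA, List.append_assoc, List.singleton_append, weight_append]

lemma DI_pv (w : Sym2 V → ℝ) {u v p : V} (h : pv P u v = some p) :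
    DI P w u v = DI P w u p + w s(p, v) := by
  obtain ⟨A, hA⟩ := last_eq P u p
  unfold DI
  rw [(pv_path hP h).2, hA, List.append_assoc, List.singleton_append, weight_append]
  simp [weight]

/-- The Lipschitz criterion. -/
lemma induces_of_lip (w : Sym2 V → ℝ)
    (h : ∀ u x y, G.Adj x y → DI P w u y ≤ DI P w u x + w s(x, y)) : Induces w P := by
  intro u v l hl
  have key : ∀ (l : List V) (x v : V), l.IsChain G.Adj → l.head? = some x → l.getLast? = some v →
      DI P w u v ≤ DI P w u x + weight w l := by
    intro l
    induction l with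
    | nil => intro x v _ h1 _; simp at h1
    | cons a l ih =>
      intro x v h1 h2 h3
      simp at h2
      subst h2
      cases l with
      | nil =>
        simp at h3
        subst h3
        simp [weight]
      | cons b l =>
        rw [List.isChain_cons_cons] at h1
        have h4 := ih b v h1.2 rfl (by simpa using h3)
        have h5 := h u a b h1.1
        simp only [weight]
        linarith
  have := key l u v hl.1 hl.2.2.1 hl.2.2.2
  rw [DI_self hP] at this
  unfold DI at this
  linarith

end Pool.Agent.V8H44.TH
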