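import Pool.Agent.V8H44.TH.Theta
import Pool.Agent.V8H44.TH.Dat

/-!
Consistent path systems of theta graphs.
-/

set_option autoImplicit false

namespace Pool.Agent.V8H44.TH

open Pool.Agent.V8H16.Theta

variable {V : Type} {G : SimpleGraph V} {l : Fin 3 → ℕ} {R : Fin 3 → ℕ → V}

lemma inner_ne (h : IsTheta G l R) {r r' : Fin 3} {i j : ℕ} (h0 : 0 < i) (h1 : i < l r)
    (h2 : j ≤ l r') (hne : r = r' → i ≠ j) : R r i ≠ R r' j := by
  intro e
  rcases h.inj r i r' j h1.le h2 e with ⟨e1, e2⟩ | ⟨e1, _⟩ | ⟨e1, _⟩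
  · exact hne e1 e2
  · omega
  · omega

lemma inner_adj (h : IsTheta G l R) {r : Fin 3} {j : ℕ} (h0 : 0 < j) (h1 : j < l r) {x : V}
    (hx : G.Adj x (R r j)) : x = R r (j - 1) ∨ x = R r (j + 1) := by
  obtain ⟨r', i, hi, h2 | h2⟩ := (h.adj _ _).mp hx
  · rcases h.inj r j r' (i + 1) h1.le hi h2.2 with ⟨e1, e2⟩ | ⟨e1, _⟩ | ⟨e1, _⟩
    · left
      rw [h2.1, e2, e1]; rfl
    · omega
    · omega
  · rcases h.inj r j r' i h1.le hi.le h2.1 with ⟨e1, e2⟩ | ⟨e1, _⟩ | ⟨e1, _⟩
    · right
      rw [h2.2, e2, e1]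
    · omega
    · omega

lemma step_ne (h : IsTheta G l R) {r : Fin 3} {j : ℕ} (h0 : 0 < j) (h1 : j < l r) :
    R r (j - 1) ≠ R r (j + 1) := by
  intro e
  rcases h.inj r (j - 1) r (j + 1) (by omega) (by omega) e with ⟨_, e2⟩ | ⟨_, e2⟩ | ⟨e1, _⟩ <;> omega

variable {P : PathSystem G} (hP : Consistent P) (h : IsTheta G l R)

include hP h

lemma dich {u : V} {r : Fin 3} {j : ℕ} (h0 : 0 < j) (h1 : j < l r) (hu : u ≠ R r j) :
    pv P u (R r j) = some (R r (j - 1)) ∨ pv P u (R r j) = some (R r (j + 1)) := by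
  obtain ⟨p, hp⟩ := exists_pv hP hu
  rcases inner_adj h h0 h1 (pv_path hP hp).1 with e | e
  · left; rw [hp, e]
  · right; rw [hp, e]

lemma not_both {u : V} {r : Fin 3} {j : ℕ} (h0 : 0 < j) (h1 : j < l r)
    (h2 : pv P u (R r j) = some (R r (j - 1))) : ¬ pv P u (R r j) = some (R r (j + 1)) := by
  intro h3
  rw [h2] at h3
  exact step_ne h h0 h1 (Option.some.inj h3)

lemma cs_down {u : V} {r : Fin 3} {a j : ℕ} (hj : j ≤ l r) 
    (hne : ∀ i, a < i → i < j → u ≠ R r i) (hpv : pv P u (R r j) = some (R r (j - 1))) :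
    ∀ i, a < i → i ≤ j → pv P u (R r i) = some (R r (i - 1)) := by
  have key : ∀ d i, a < i → i + d = j → pv P u (R r i) = some (R r (i - 1)) := by
    intro d
    induction d with
    | zero =>
      intro i _ e
      have : i = j := by omega
      rw [this]; exact hpv
    | succ d ih =>
      intro i hi e
      have h1 := ih (i + 1) (by omega) (by omega)
      rcases dich hP h (by omega : 0 < i) (by omega : i < l r) (hne i hi (by omega)) with h2 | h2
      · exact h2
      · exfalso
        have l1 := pv_length hP h1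
        have l2 := pv_length hP h2
        rw [Nat.add_sub_cancel] at l1
        omega
  intro i hi hij
  exact key (j - i) i hi (by omega)

lemma cs_up {u : V} {r : Fin 3} {a j : ℕ}
    (hpv : ∀ i, a < i → i ≤ j → pv P u (R r i) = some (R r (i - 1))) :
    ∀ i, a ≤ i → i ≤ j → R r a ∈ P.path u (R r i) := by
  intro i hi
  induction i, hi using Nat.le_induction with
  | base => intro _; exact right_mem P u _
  | succ i hi ih =>
    intro hij
    have h1 := hpv (i + 1) (by omega) hij
    rw [(pv_path hP h1).2]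
    exact List.mem_append_left _ (ih (by omega))

lemma cs_D {u : V} {r : Fin 3} {a j : ℕ} (hj : j ≤ l r) {w : Sym2 V → ℝ} {X : Fin 3 → ℕ → ℝ}
    (hw : ∀ r i, i < l r → w s(R r i, R r (i + 1)) = X r (i + 1) - X r i)
    (hpv : ∀ i, a < i → i ≤ j → pv P u (R r i) = some (R r (i - 1))) :
    ∀ i, a ≤ i → i ≤ j → DI P w u (R r i) = DI P w u (R r a) + X r i - X r a := by
  intro i hi
  induction i, hi using Nat.le_induction with
  | base => intro _; ring
  | succ i hi ih =>
    intro hij
    have h1 := hpv (i + 1) (by omega) hij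
    rw [DI_pv hP w h1, Nat.add_sub_cancel, ih (by omega), hw r i (by omega)]
    ring

lemma ct_up {u : V} {r : Fin 3} {b j : ℕ} (hb : b ≤ l r) (hj : 0 < j) 
    (hne : ∀ i, j < i → i < b → u ≠ R r i) (hpv : pv P u (R r j) = some (R r (j + 1))) :
    ∀ i, j ≤ i → i < b → pv P u (R r i) = some (R r (i + 1)) := by
  intro i hi
  induction i, hi using Nat.le_induction with
  | base => intro _; exact hpv
  | succ i hi ih =>
    intro hib
    have h1 := ih (by omega)
    rcases dich hP h (by omega : 0 < i + 1) (by omega : i + 1 < l r)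
      (hne (i + 1) (by omega) (by omega)) with h2 | h2
    · exfalso
      have l1 := pv_length hP h1
      have l2 := pv_length hP h2
      rw [Nat.add_sub_cancel] at l2
      omega
    · exact h2

lemma ct_down {u : V} {r : Fin 3} {b j : ℕ}
    (hpv : ∀ i, j ≤ i → i < b → pv P u (R r i) = some (R r (i + 1))) :
    ∀ i, j ≤ i → i ≤ b → R r b ∈ P.path u (R r i) := by
  have key : ∀ d i, j ≤ i → i + d = b → R r b ∈ P.path u (R r i) := by
    intro d
    induction d with
    | zero =>
      intro i _ e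
      have : i = b := by omega
      rw [this]; exact right_mem P u _
    | succ d ih =>
      intro i hi e
      have h1 := ih (i + 1) (by omega) (by omega)
      rw [(pv_path hP (hpv i hi (by omega))).2]
      exact List.mem_append_left _ h1
  intro i hi hij
  exact key (b - i) i hi (by omega)

lemma ct_D {u : V} {r : Fin 3} {b j : ℕ} (hb : b ≤ l r) {w : Sym2 V → ℝ} {X : Fin 3 → ℕ → ℝ}
    (hw : ∀ r i, i < l r → w s(R r i, R r (i + 1)) = X r (i + 1) - X r i)
    (hpv : ∀ i, j ≤ i → i < b → pv P u (R r i) = some (R r (i + 1))) :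
    ∀ i, j ≤ i → i ≤ b → DI P w u (R r i) = DI P w u (R r b) + X r b - X r i := by
  have key : ∀ d i, j ≤ i → i + d = b →
      DI P w u (R r i) = DI P w u (R r b) + X r b - X r i := by
    intro d
    induction d with
    | zero =>
      intro i _ e
      have : i = b := by omega
      rw [this]; ring
    | succ d ih =>
      intro i hi e
      have h1 := ih (i + 1) (by omega) (by omega)
      rw [DI_pv hP w (hpv i hi (by omega)), h1, Sym2.eq_swap, hw r i (by omega)]
      ring
  intro i hi hij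
  exact key (b - i) i hi (by omega)

/-- `A1`. -/
lemma A1 {r : Fin 3} {i : ℕ} (h0 : 0 < i) (h1 : i < l r)
    (hT : pv P (R r (l r)) (R r i) = some (R r (i + 1))) {k : ℕ} (hik : i < k) (hk : k ≤ l r) :
    pv P (R r i) (R r k) = some (R r (k - 1)) := by
  have h2 := ct_up hP h (le_refl (l r)) h0
    (fun m hm hm' => (inner_ne h (by omega) hm' (le_refl _) (fun _ => by omega)).symm) hT
  have h3 : pv P (R r (l r)) (R r (k - 1)) = some (R r k) := by
    have := h2 (k - 1) (by omega) (by omega)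
    rwa [Nat.sub_add_cancel (by omega)] at this
  have h4 : R r (k - 1) ∈ P.path (R r (l r)) (R r i) :=
    ct_down hP h (b := k - 1) (fun m hm hm' => h2 m hm (by omega)) i (le_refl _) (by omega)
  exact pv_rev hP h4 h3

/-- `A2`. -/
lemma A2 {r : Fin 3} {i : ℕ} (h0 : 0 < i) (h1 : i < l r)
    (hS : pv P (R r 0) (R r i) = some (R r (i - 1))) {k : ℕ} (hik : k < i) :
    pv P (R r i) (R r k) = some (R r (k + 1)) := by
  have h2 := cs_down hP h (a := 0) h1.le
    (fun m hm hm' => (inner_ne h (by omega) (by omega) (Nat.zero_le _) (fun _ => by omega)).symm) hS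
  have h3 : pv P (R r 0) (R r (k + 1)) = some (R r k) := h2 (k + 1) (by omega) (by omega)
  have h4 : R r (k + 1) ∈ P.path (R r 0) (R r i) :=
    cs_up hP h (a := k + 1) (fun m hm hm' => h2 m (by omega) hm') i (by omega) (le_refl _)
  exact pv_rev hP h4 h3

lemma dir {r : Fin 3} {i k : ℕ} (h0 : 0 < i) (h1 : i < k) (h2 : k < l r) :
    pv P (R r k) (R r i) = some (R r (i + 1)) ↔ pv P (R r i) (R r k) = some (R r (k - 1)) := by
  constructor
  · intro hT
    have h3 := ct_up hP h h2.le h0
      (fun m hm hm' => inner_ne h (by omega) h2 (by omega) (fun _ => by omega)) hT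
    have h4 : pv P (R r k) (R r (k - 1)) = some (R r k) := by
      have := h3 (k - 1) (by omega) (by omega)
      rwa [Nat.sub_add_cancel (by omega)] at this
    have h5 : R r (k - 1) ∈ P.path (R r k) (R r i) :=
      ct_down hP h (b := k - 1) (fun m hm hm' => h3 m hm (by omega)) i (le_refl _) (by omega)
    exact pv_rev hP h5 h4
  · intro hS
    have h3 := cs_down hP h (a := i) h2.le
      (fun m hm hm' => (inner_ne h (by omega) (by omega) (by omega) (fun _ => by omega)).symm) hS
    have h4 : pv P (R r i) (R r (i + 1)) = some (R r i) := h3 (i + 1) (by omega) (by omega)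
    have h5 : R r (i + 1) ∈ P.path (R r i) (R r k) :=
      cs_up hP h (a := i + 1) (fun m hm hm' => h3 m (by omega) hm') k (by omega) (le_refl _)
    exact pv_rev hP h5 h4

/-- The route used by the path from `s` to `t`. -/
lemma exists_r0 (hl : ∀ r, 2 ≤ l r) :
    ∃ r0 : Fin 3, pv P (R r0 0) (R r0 (l r0)) = some (R r0 (l r0 - 1)) := by
  have hne : R 0 0 ≠ R 0 (l 0) := by
    intro e
    have := hl 0
    rcases h.inj 0 0 0 (l 0) (Nat.zero_le _) (le_refl _) e with ⟨_, e2⟩ | ⟨_, e2⟩ | ⟨e1, _⟩ <;> omega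
  obtain ⟨p, hp⟩ := exists_pv hP hne
  obtain ⟨r', i, hi, h2 | h2⟩ := (h.adj _ _).mp (pv_path hP hp).1
  · have hi' : i + 1 = l r' := by
      rcases h.inj 0 (l 0) r' (i + 1) (le_refl _) hi h2.2 with ⟨e1, e2⟩ | ⟨e1, e2⟩ | ⟨_, e2⟩
      · rw [← e1]; exact e2.symm
      · omega
      · exact e2
    refine ⟨r', ?_⟩
    rw [h.start r' 0, h.finish r' 0, hp, h2.1, ← hi']
    rfl
  · exfalso
    have := hl 0
    rcases h.inj 0 (l 0) r' i (le_refl _) hi.le h2.1 with ⟨e1, e2⟩ | ⟨e1, e2⟩ | ⟨_, e2⟩
    · rw [← e1] at hi; omega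
    · omega
    · omega

end Pool.Agent.V8H44.TH
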