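import Pool.Agent.V8H44.TH.Path

/-!
Theta graphs given by three routes.
-/

set_option autoImplicit false

namespace Pool.Agent.V8H44.TH

open Pool.Agent.V8H16.Theta

/-- `G` is the theta graph with three routes `R r 0, R r 1, …, R r (l r)` between the common ends
`s = R r 0` and `t = R r (l r)`: it consists of these vertices, which are distinct except for the
common ends, and of the edges joining consecutive vertices of a route. -/
structure IsTheta {V : Type} (G : SimpleGraph V) (l : Fin 3 → ℕ) (R : Fin 3 → ℕ → V) : Prop where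
  start : ∀ r r', R r 0 = R r' 0
  finish : ∀ r r', R r (l r) = R r' (l r')
  cover : ∀ v, ∃ r i, i ≤ l r ∧ R r i = v
  inj : ∀ r i r' j, i ≤ l r → j ≤ l r' → R r i = R r' j →
    (r = r' ∧ i = j) ∨ (i = 0 ∧ j = 0) ∨ (i = l r ∧ j = l r')
  adj : ∀ x y, G.Adj x y ↔ ∃ r i, i < l r ∧
    ((x = R r i ∧ y = R r (i + 1)) ∨ (y = R r i ∧ x = R r (i + 1)))

end Pool.Agent.V8H44.TH
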